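import Pool.Agent.J6H79.SM.Stm
import Pool.Agent.J6H79.FR.Mem

/-!
# Perturbed constant terms: size of the certificates
-/

set_option autoImplicit false

namespace Pool.Agent.J6H79.SM

namespace Cert

open Pool.Agent.NPC Pool.Agent.NPC.ER Pool.Agent.J6H79.FR Pool.Agent.NPC.ER.J6H79

theorem hcongr {x y : ℕ → ℝ} : ∀ {φ : Fm}, (∀ i, Tok.var i ∈ φ.toks → x i = y i) →
    (φ.Holds x ↔ φ.Holds y)
  | .eq s t, h => by
    have h1 : s.eval x = s.eval y := eval_congr' fun i hi => h i (by
      simp [Fm.toks, tvars_toks hi])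
    have h2 : t.eval x = t.eval y := eval_congr' fun i hi => h i (by
      simp [Fm.toks, tvars_toks hi])
    simp only [Fm.Holds, h1, h2]
  | .lt s t, h => by
    have h1 : s.eval x = s.eval y := eval_congr' fun i hi => h i (by
      simp [Fm.toks, tvars_toks hi])
    have h2 : t.eval x = t.eval y := eval_congr' fun i hi => h i (by
      simp [Fm.toks, tvars_toks hi])
    simp only [Fm.Holds, h1, h2]
  | .le s t, h => by
    have h1 : s.eval x = s.eval y := eval_congr' fun i hi => h i (by
      simp [Fm.toks, tvars_toks hi])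
    have h2 : t.eval x = t.eval y := eval_congr' fun i hi => h i (by
      simp [Fm.toks, tvars_toks hi])
    simp only [Fm.Holds, h1, h2]
  | .not φ, h => not_congr (hcongr (φ := φ) fun i hi => h i (by simp [Fm.toks, hi]))
  | .and φ ψ, h => and_congr
      (hcongr (φ := φ) fun i hi => h i (by simp [Fm.toks, hi]))
      (hcongr (φ := ψ) fun i hi => h i (by simp [Fm.toks, hi]))
  | .or φ ψ, h => or_congr
      (hcongr (φ := φ) fun i hi => h i (by simp [Fm.toks, hi]))
      (hcongr (φ := ψ) fun i hi => h i (by simp [Fm.toks, hi]))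

/-- the variables of the formula with the perturbation -/
theorem nz_vars (M i : ℕ) : ∀ (φ : Fm) (k : ℕ), Tok.var i ∈ (nz M k φ).toks →
    Tok.var i ∈ φ.toks ∨ ∃ j < na φ, i = M + (k + j)
  | .eq s t, k, h => by
    simp only [nz, Fm.toks, Tm.toks, List.mem_append, List.mem_singleton, Tok.var.injEq,
      reduceCtorEq, or_false] at h
    rcases h with h | h | h
    · exact Or.inl (by simp [Fm.toks, h])
    · exact Or.inl (by simp [Fm.toks, h])
    · exact Or.inr ⟨0, by simp [na], by rw [h]; omega⟩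
  | .lt s t, k, h => by
    simp only [nz, Fm.toks, Tm.toks, List.mem_append, List.mem_singleton, Tok.var.injEq,
      reduceCtorEq, or_false] at h
    rcases h with h | h | h
    · exact Or.inl (by simp [Fm.toks, h])
    · exact Or.inl (by simp [Fm.toks, h])
    · exact Or.inr ⟨0, by simp [na], by rw [h]; omega⟩
  | .le s t, k, h => by
    simp only [nz, Fm.toks, Tm.toks, List.mem_append, List.mem_singleton, Tok.var.injEq,
      reduceCtorEq, or_false] at h
    rcases h with h | h | h
    · exact Or.inl (by simp [Fm.toks, h])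
    · exact Or.inl (by simp [Fm.toks, h])
    · exact Or.inr ⟨0, by simp [na], by rw [h]; omega⟩
  | .not φ, k, h => by
    simp only [nz, Fm.toks, List.mem_append, List.mem_singleton, reduceCtorEq, or_false] at h
    rcases nz_vars M i φ k h with h | h
    · exact Or.inl (by simp [Fm.toks, h])
    · exact Or.inr h
  | .and φ ψ, k, h => by
    simp only [nz, Fm.toks, List.mem_append, List.mem_singleton, reduceCtorEq, or_false] at h
    rcases h with h | h
    · rcases nz_vars M i φ k h with h | ⟨j, hj, h⟩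
      · exact Or.inl (by simp [Fm.toks, h])
      · exact Or.inr ⟨j, by simp only [na]; omega, h⟩
    · rcases nz_vars M i ψ _ h with h | ⟨j, hj, h⟩
      · exact Or.inl (by simp [Fm.toks, h])
      · exact Or.inr ⟨na φ + j, by simp only [na]; omega, by omega⟩
  | .or φ ψ, k, h => by
    simp only [nz, Fm.toks, List.mem_append, List.mem_singleton, reduceCtorEq, or_false] at h
    rcases h with h | h
    · rcases nz_vars M i φ k h with h | ⟨j, hj, h⟩
      · exact Or.inl (by simp [Fm.toks, h])
      · exact Or.inr ⟨j, by simp only [na]; omega, h⟩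
    · rcases nz_vars M i ψ _ h with h | ⟨j, hj, h⟩
      · exact Or.inl (by simp [Fm.toks, h])
      · exact Or.inr ⟨na φ + j, by simp only [na]; omega, by omega⟩

/-- the entry of an integer -/
def ent (m : ℤ) : ℕ × ℕ := (m.toNat, (-m).toNat)

theorem ent_sub (m : ℤ) : (((ent m).1 : ℝ) - (ent m).2) = m := by
  have : (m.toNat : ℤ) - ((-m).toNat : ℤ) = m := by omega
  show ((m.toNat : ℝ) - ((-m).toNat : ℝ)) = m
  exact_mod_cast this

theorem ent_le {m : ℤ} {B : ℕ} (h : |(m : ℝ)| ≤ B) : (ent m).1 ≤ B ∧ (ent m).2 ≤ B := by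
  have h1 : |m| ≤ (B : ℤ) := by exact_mod_cast h
  rw [abs_le] at h1
  constructor
  · show m.toNat ≤ B
    omega
  · show (-m).toNat ≤ B
    omega

theorem lk_eq {C : List (ℕ × ℕ × ℕ)} {i : ℕ} {e : ℕ × ℕ} (hmem : (i, e) ∈ C)
    (huniq : ∀ f, (i, f) ∈ C → f = e) : lk C i = e := by
  have h1 : (i, e) ∈ C.filter fun e => decide (e.1 = i) := by
    simp [hmem]
  unfold lk
  obtain ⟨a, l, hl⟩ := List.exists_cons_of_ne_nil (List.ne_nil_of_mem h1)
  rw [hl]
  have h2 : a ∈ C.filter fun e => decide (e.1 = i) := by rw [hl]; simp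
  obtain ⟨h3, h4⟩ := List.mem_filter.1 h2
  have h5 : a.1 = i := by simpa using h4
  have h6 : (i, a.2) ∈ C := by rw [← h5]; exact h3
  simpa using huniq _ h6

/-- the size polynomial -/
noncomputable def pp : Polynomial ℕ :=
  2 * Polynomial.X * (4 * (2 * Polynomial.X + 2) + 8 * (Polynomial.X + 1 +
    ((Polynomial.X + 1) * (3 + Polynomial.X + ((2 * Polynomial.X + 4) * (Polynomial.X + 2) + 1)) +
      1)) + 6) + 1

theorem pp_eval (n : ℕ) : pp.eval n = 2 * n * (4 * (2 * n + 2) + 8 * (n + 1 +
    ((n + 1) * (3 + n + ((2 * n + 4) * (n + 2) + 1)) + 1)) + 6) + 1 := by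
  simp [pp]

theorem WW_pos {b q : ℕ} (hq : 1 ≤ q) (φ : Fm) : 0 < WW b q φ := by
  unfold WW W0
  positivity

theorem size_WW {b q S : ℕ} {φ : Fm} (hb : b < 2 ^ S) (hq : q < 2 ^ S) (hL : φ.toks.length ≤ S) :
    (WW b q φ).size ≤ (S + 1) * (3 + S + ((2 * S + 4) * (S + 2) + 1)) + 1 := by
  have h1 : (b + 2).size ≤ S + 2 := by
    rw [Nat.size_le, pow_add]
    have := Nat.one_le_two_pow (n := S)
    omega
  have h2 := size_pow_le (b + 2) (2 * φ.toks.length + 4)
  have h3 : q.size ≤ S := Nat.size_le.2 hq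
  have h4 : (4 * q).size ≤ 3 + S := by
    have := size_mul_le' 4 q
    have h5 : (4 : ℕ).size = 3 := by decide
    omega
  have h5 := size_mul_le' (4 * q) ((b + 2) ^ (2 * φ.toks.length + 4))
  have h6 := size_pow_le (W0 b q φ) (φ.toks.length + 1)
  have h7 : (2 * φ.toks.length + 4) * (b + 2).size ≤ (2 * S + 4) * (S + 2) :=
    Nat.mul_le_mul (by omega) h1
  have h8 : (W0 b q φ).size ≤ 3 + S + ((2 * S + 4) * (S + 2) + 1) := by
    unfold W0
    omega
  have h9 : (φ.toks.length + 1) * (W0 b q φ).size ≤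
      (S + 1) * (3 + S + ((2 * S + 4) * (S + 2) + 1)) := Nat.mul_le_mul (by omega) h8
  unfold WW
  omega

end Cert

open Cert Pool.Agent.NPC Pool.Agent.NPC.ER Pool.Agent.J6H79.FR Pool.Agent.NPC.ER.J6H79

/-- **Certificates.** -/
theorem cert (h : S_nz) : S_cert := by
  refine ⟨pp, fun K b φ q r hq hr x y hD hP hx hy => ?_⟩
  obtain ⟨hna, -, hmb, -, hnz, -⟩ := h φ
  have hW := WW_pos (b := b) hq φ
  have hWr : (0 : ℝ) < WW b q φ := by exact_mod_cast hW
  choose X hX using hx
  have hY' : ∀ k, ∃ z : ℤ, k < na φ → y k = z / WW b q φ := by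
    intro k
    by_cases hk : k < na φ
    · obtain ⟨⟨z, hz⟩, -⟩ := hy k hk
      exact ⟨z, fun _ => hz⟩
    · exact ⟨0, fun h => absurd h hk⟩
  choose Y hY using hY'
  set C : List (ℕ × ℕ × ℕ) := φ.toks.map (fun t => (t.code.2, ent (X t.code.2))) ++
    (List.range (na φ)).map (fun k => (mb φ + k, ent (Y k))) with hC
  have hmem : ∀ e : ℕ × ℕ × ℕ, e ∈ C ↔ (∃ t ∈ φ.toks, (t.code.2, ent (X t.code.2)) = e) ∨
      ∃ k < na φ, (mb φ + k, ent (Y k)) = e := by
    intro e
    rw [hC, List.mem_append, List.mem_map, List.mem_map]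
    simp only [List.mem_range]
  have hlk1 : ∀ t ∈ φ.toks, lk C t.code.2 = ent (X t.code.2) := by
    intro t ht
    refine lk_eq ((hmem _).2 (Or.inl ⟨t, ht, rfl⟩)) fun f hf => ?_
    rcases (hmem _).1 hf with ⟨u, hu, h1⟩ | ⟨k, hk, h1⟩
    · rw [Prod.mk.injEq] at h1
      rw [← h1.2, h1.1]
    · rw [Prod.mk.injEq] at h1
      have := hmb t ht
      omega
  have hlk2 : ∀ k < na φ, lk C (mb φ + k) = ent (Y k) := by
    intro k hk
    refine lk_eq ((hmem _).2 (Or.inr ⟨k, hk, rfl⟩)) fun f hf => ?_
    rcases (hmem _).1 hf with ⟨u, hu, h1⟩ | ⟨k', hk', h1⟩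
    · rw [Prod.mk.injEq] at h1
      have := hmb u hu
      omega
    · rw [Prod.mk.injEq] at h1
      have h2 : k' = k := by omega
      rw [← h1.2, h2]
  have hcp1 : ∀ t ∈ φ.toks, cp (WW b q φ) C t.code.2 = x t.code.2 := by
    intro t ht
    unfold cp
    rw [hlk1 t ht, ent_sub, hX]
  have hcp2 : ∀ k < na φ, cp (WW b q φ) C (mb φ + k) = y k := by
    intro k hk
    unfold cp
    rw [hlk2 k hk, ent_sub, hY k hk]
  refine ⟨C, ?_, ?_, ?_, ?_⟩
  · -- the size
    rw [pp_eval]
    set S := sz (K, b, φ, q, r) with hS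
    have hSe : S = sz K + (sz b + (sz φ.toks + (sz q + sz r + 1) + 1) + 1) + 1 := by
      rw [hS]
      simp only [sz_pair]
      rfl
    have s1 := size_le_sz b
    have s2 := size_le_sz q
    have hb : b < 2 ^ S := Nat.size_le.1 (by omega)
    have hq2 : q < 2 ^ S := Nat.size_le.1 (by omega)
    have hL : φ.toks.length ≤ S := by
      have := (length_lt_sz φ.toks).le
      omega
    have hrk : ∀ k, r.getD k 0 < 2 ^ S := by
      intro k
      rw [List.getD_eq_getElem?_getD]
      rcases hk : r[k]? with _ | a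
      · simp
      · have h1 := sz_le_of_mem (List.mem_of_getElem? hk)
        have h2 := size_le_sz a
        simpa using Nat.size_le.1 (show a.size ≤ S by omega)
    have hcode : ∀ t ∈ φ.toks, t.code.2 < 2 ^ S := by
      intro u hu
      have h1 := sz_le_of_mem hu
      have h2 : sz u = sz u.code.1 + sz u.code.2 + 1 := sz_pair _ _
      have h3 := size_le_sz u.code.2
      exact Nat.size_le.1 (by omega)
    have hmbS : ∀ k ≤ na φ, mb φ + k < 2 ^ (2 * S + 2) := by
      intro k hk
      have h1 : (φ.toks.map fun t => t.code.2).sum ≤ φ.toks.length * 2 ^ S := by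
        have h2 := List.sum_le_card_nsmul (φ.toks.map fun t => t.code.2) (2 ^ S) (by
          intro a ha
          obtain ⟨t, ht, rfl⟩ := List.mem_map.1 ha
          exact (hcode t ht).le)
        simpa using h2
      have h2 : S < 2 ^ S := Nat.lt_two_pow_self
      have h3 : φ.toks.length * 2 ^ S ≤ 2 ^ S * 2 ^ S := Nat.mul_le_mul_right _ (by omega)
      have h4 : 2 ^ (2 * S + 2) = 4 * (2 ^ S * 2 ^ S) := by
        rw [pow_add, two_mul, pow_add]; ring
      have h5 : 2 ^ S ≤ 2 ^ S * 2 ^ S := Nat.le_mul_of_pos_left _ (by positivity)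
      have h6 : 1 ≤ 2 ^ S := Nat.one_le_two_pow
      unfold mb
      omega
    have hBX : ∀ i, |(X i : ℝ)| ≤ ((2 ^ S * WW b q φ : ℕ) : ℝ) := by
      intro i
      have h1 : (X i : ℝ) = x i * WW b q φ := by rw [hX i]; field_simp
      have h2 : |x i| ≤ (2 : ℝ) ^ S := by
        have h3 : (b : ℝ) ≤ 2 ^ S := by exact_mod_cast hb.le
        have h4 : (1 : ℝ) ≤ 2 ^ S := one_le_pow₀ (by norm_num)
        by_cases hi : i < K
        · exact (hD.1 i hi).trans h3
        · rcases hD.2 i (not_lt.1 hi) with h5 | h5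
          · rw [h5, abs_zero]; positivity
          · rw [h5, abs_one]; exact h4
      rw [h1, abs_mul, abs_of_pos hWr]
      push_cast
      exact mul_le_mul_of_nonneg_right h2 hWr.le
    have hBY : ∀ k < na φ, |(Y k : ℝ)| ≤ ((2 ^ S * WW b q φ : ℕ) : ℝ) := by
      intro k hk
      have h1 : (Y k : ℝ) = y k * WW b q φ := by rw [hY k hk]; field_simp
      have hqr : (1 : ℝ) ≤ q := by exact_mod_cast hq
      have h2 : |y k| ≤ (2 : ℝ) ^ S := by
        have h3 := (hy k hk).2
        have h4 : |nse q r k| ≤ r.getD k 0 := by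
          unfold nse
          rw [abs_of_nonneg (by positivity)]
          exact div_le_self (by positivity) hqr
        have h5 : (1 : ℝ) / (4 * q) ≤ 1 := by
          rw [div_le_one (by positivity)]
          linarith
        have h6 : (r.getD k 0 : ℝ) + 1 ≤ 2 ^ S := by exact_mod_cast hrk k
        have h7 : |y k| ≤ |y k - nse q r k| + |nse q r k| := by
          have := abs_add_le (y k - nse q r k) (nse q r k)
          simpa using this
        linarith
      rw [h1, abs_mul, abs_of_pos hWr]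
      push_cast
      exact mul_le_mul_of_nonneg_right h2 hWr.le
    have hBsz : (2 ^ S * WW b q φ).size ≤
        S + 1 + ((S + 1) * (3 + S + ((2 * S + 4) * (S + 2) + 1)) + 1) := by
      have h1 := size_mul_le' (2 ^ S) (WW b q φ)
      have h2 := size_WW hb hq2 hL
      have h3 : (2 ^ S).size ≤ S + 1 := by
        rw [Nat.size_le]
        exact Nat.pow_lt_pow_right (by norm_num) (Nat.lt_succ_self _)
      omega
    set T := S + 1 + ((S + 1) * (3 + S + ((2 * S + 4) * (S + 2) + 1)) + 1) with hT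
    have hent : ∀ (i : ℕ) (z : ℤ), i < 2 ^ (2 * S + 2) →
        |(z : ℝ)| ≤ ((2 ^ S * WW b q φ : ℕ) : ℝ) → sz (i, ent z) ≤ 4 * (2 * S + 2) + 8 * T + 5 := by
      intro i z hi hz
      obtain ⟨h1, h2⟩ := ent_le hz
      have h3 := size_mono h1
      have h4 := size_mono h2
      have h5 := sz_nat_le (ent z).1
      have h6 := sz_nat_le (ent z).2
      have h7 := sz_nat_le i
      have h8 : i.size ≤ 2 * S + 2 := Nat.size_le.2 hi
      have h9 : sz (i, ent z) = sz i + (sz (ent z).1 + sz (ent z).2 + 1) + 1 := by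
        have h15 : sz (ent z) = sz (ent z).1 + sz (ent z).2 + 1 := sz_pair _ _
        rw [sz_pair, h15]
      rw [h9]
      omega
    have e1 : ∀ e ∈ C, sz e ≤ 4 * (2 * S + 2) + 8 * T + 5 := by
      intro e he
      rcases (hmem e).1 he with ⟨t, ht, rfl⟩ | ⟨k, hk, rfl⟩
      · refine hent _ _ ?_ (hBX _)
        have h1 := hmb t ht
        have h2 := hmbS 0 (Nat.zero_le _)
        omega
      · exact hent _ _ (hmbS k hk.le) (hBY k hk)
    have e2 := sz_le_length_mul C _ e1
    have e3 : C.length = φ.toks.length + na φ := by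
      rw [hC, List.length_append, List.length_map, List.length_map, List.length_range]
    rw [e3] at e2
    refine e2.trans (Nat.add_le_add_right (Nat.mul_le_mul (by omega) (by omega)) 1)
  · -- the entries
    intro e he hlt
    rcases (hmem e).1 he with ⟨t, ht, rfl⟩ | ⟨k, hk, rfl⟩
    · have h1 : (((ent (X t.code.2)).1 : ℝ) - (ent (X t.code.2)).2) / WW b q φ = x t.code.2 := by
        rw [ent_sub, hX]
      refine ⟨fun hK => ?_, fun hK => ?_⟩
      · change |(((ent (X t.code.2)).1 : ℝ) - (ent (X t.code.2)).2) / WW b q φ| ≤ b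
        rw [h1]
        exact hD.1 _ hK
      · change (((ent (X t.code.2)).1 : ℝ) - (ent (X t.code.2)).2) / WW b q φ = 0 ∨
          (((ent (X t.code.2)).1 : ℝ) - (ent (X t.code.2)).2) / WW b q φ = 1
        rw [h1]
        exact hD.2 _ hK
    · change mb φ + k < mb φ at hlt
      omega
  · intro k hk
    rw [hr] at hk
    rw [hcp2 k hk]
    exact (hy k hk).2
  · have h1 := ((hnz (mb φ) 0 hmb).2 x y).1 hP
    refine (hcongr fun i hi => ?_).1 h1
    rcases nz_vars (mb φ) i φ 0 hi with h2 | ⟨j, hj, h2⟩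
    · have h3 := hmb _ h2
      change i < mb φ at h3
      rw [if_pos h3]
      exact (hcp1 _ h2).symm
    · have h3 : i = mb φ + j := by omega
      have h4 : ¬ i < mb φ := by omega
      have h5 : i - mb φ = j := by omega
      rw [if_neg h4, h5, h3]
      exact (hcp2 j hj).symm

end Pool.Agent.J6H79.SM
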