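import Pool.Agent.J6H79.SM.Stm

/-!
# Exceptions are rare
-/

set_option autoImplicit false

namespace Pool.Agent.J6H79.SM

open Pool.Agent.NPC Pool.Agent.NPC.ER Pool.Agent.J6H79.FR Pool.Agent.NPC.ER.J6H79

namespace Cnt

lemma getD_lst {m N : ℕ} (r : Fin m → Fin N) (k : ℕ) :
    (lst r).getD k 0 = if h : k < m then ((r ⟨k, h⟩ : Fin N) : ℕ) else 0 := by
  unfold lst
  by_cases h : k < m
  · simp [h]
  · simp [h]

lemma getD_update_ne {m N : ℕ} (r : Fin m → Fin N) (j : Fin m) (a : Fin N) (k : ℕ)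
    (hk : k ≠ (j : ℕ)) : (lst (Function.update r j a)).getD k 0 = (lst r).getD k 0 := by
  rw [getD_lst, getD_lst]
  by_cases h : k < m
  · rw [dif_pos h, dif_pos h, Function.update_of_ne]
    intro h1
    apply hk
    rw [← h1]
  · rw [dif_neg h, dif_neg h]

lemma nse_update_ne {m N : ℕ} (q : ℕ) (r : Fin m → Fin N) (j : Fin m) (a : Fin N) (k : ℕ)
    (hk : k ≠ (j : ℕ)) : nse q (lst (Function.update r j a)) k = nse q (lst r) k := by
  unfold nse
  rw [getD_update_ne r j a k hk]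

lemma nse_update_self {m N : ℕ} (q : ℕ) (r : Fin m → Fin N) (j : Fin m) (a : Fin N) :
    nse q (lst (Function.update r j a)) (j : ℕ) = ((a : ℕ) : ℝ) / q := by
  unfold nse
  rw [getD_lst, dif_pos j.isLt]
  simp

/-- a point with the first `j` values of the perturbation moved -/
def T (K b : ℕ) (φ : Fm) (v : ℕ → ℝ) (η : ℝ) (j : ℕ) : Prop :=
  ∃ y : ℕ → ℝ, (∀ k < j, |y k - v k| ≤ η) ∧ (∀ k, j ≤ k → y k = v k) ∧ PSat K b φ y

/-- the set of the values of the perturbation number `j` -/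
def U (K b : ℕ) (φ : Fm) (v : ℕ → ℝ) (η : ℝ) (j : ℕ) : Set ℝ :=
  {s | ∃ y : ℕ → ℝ, (∀ k < j, |y k - v k| ≤ η) ∧ y j = s ∧
    (∀ k, j < k → y k = v k) ∧ PSat K b φ y}

lemma exists_step (P : ℕ → Prop) (m : ℕ) (h0 : ¬ P 0) (hm : P m) :
    ∃ j < m, ¬ P j ∧ P (j + 1) := by
  by_contra h
  push Not at h
  have h1 : ∀ j ≤ m, ¬ P j := by
    intro j
    induction j with
    | zero => intro _; exact h0
    | succ j ih =>
      intro hj
      exact h j (by omega) (ih (by omega))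
  exact h1 m le_rfl hm

lemma line_bound (h1 : S_comp) (h3 : S_line) {n : ℕ} {V : Set ℝ} (hV : Rep n V) (q N : ℕ)
    (hq : 1 ≤ q) :
    {a : Fin N | ((a : ℕ) : ℝ) / q ∉ V ∧
      ∃ s ∈ V, |s - ((a : ℕ) : ℝ) / q| ≤ 1 / (4 * q)}.ncard ≤ 2 * 5 ^ (n + 1) := by
  obtain ⟨m, hm, G, hG, hG0, hGU⟩ := hV
  refine h3 V (5 ^ (n + 1)) q N hq fun k s hs hin hout => ?_
  have h := h1 m G hG hG0 k s hs (fun i hi => (hGU _).1 (hin i hi)) (fun i hi z hz =>
    hout i hi ((hGU _).2 ⟨z, hz⟩))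
  exact h.trans (Nat.pow_le_pow_right (by norm_num) (by omega))

lemma step_bound (h1 : S_comp) (h3 : S_line) (h4 : S_fib) {c : ℕ} (K b : ℕ) (φ : Fm) (q N : ℕ)
    (hq : 1 ≤ q)
    (hc : ∀ (v : ℕ → ℝ) (η : ℝ) (j : ℕ), 0 ≤ η → j < na φ →
      Rep (c * φ.toks.length) (U K b φ v η j)) (j : Fin (na φ)) :
    {r : Fin (na φ) → Fin N | ¬ T K b φ (nse q (lst r)) (1 / (4 * q)) j ∧
      T K b φ (nse q (lst r)) (1 / (4 * q)) (j + 1)}.ncard ≤
      2 * 5 ^ (c * φ.toks.length + 1) * N ^ (na φ - 1) := by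
  refine h4 (na φ) N _ j _ fun r => ?_
  have hη : (0 : ℝ) ≤ 1 / (4 * q) := by positivity
  refine le_trans (Set.ncard_le_ncard ?_ (Set.toFinite _))
    (line_bound h1 h3 (hc (nse q (lst r)) (1 / (4 * q)) j hη j.isLt) q N hq)
  intro a ha
  obtain ⟨ha1, y, hy1, hy2, hy3⟩ := ha
  refine ⟨?_, y j, ⟨y, ?_, rfl, ?_, hy3⟩, ?_⟩
  · rintro ⟨z, hz1, hz2, hz3, hz4⟩
    apply ha1
    refine ⟨z, ?_, ?_, hz4⟩
    · intro k hk
      rw [nse_update_ne q r j a k (by omega)]
      exact hz1 k hk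
    · intro k hk
      rcases Nat.eq_or_lt_of_le hk with h | h
      · rw [← h, nse_update_self]
        exact hz2
      · rw [nse_update_ne q r j a k (by omega)]
        exact hz3 k h
  · intro k hk
    have h := hy1 k (by omega)
    rw [nse_update_ne q r j a k (by omega)] at h
    exact h
  · intro k hk
    have h := hy2 k (by omega)
    rw [nse_update_ne q r j a k (by omega)] at h
    exact h
  · have h := hy1 (j : ℕ) (by omega)
    rw [nse_update_self] at h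
    exact h

end Cnt

open Cnt in
theorem cnt (h1 : S_comp) (h2 : S_rep) (h3 : S_line) (h4 : S_fib) (h5 : S_nz) : S_cnt := by
  obtain ⟨c, hc⟩ := h2
  refine ⟨3 * c + 5, fun K b φ q N hq => ?_⟩
  obtain ⟨hna, hna1, -, -, -, hcong⟩ := h5 φ
  set L := φ.toks.length with hL
  have hL1 : 1 ≤ L := hna1.trans hna
  have hsub : {r : Fin (na φ) → Fin N | ¬ PSat K b φ (nse q (lst r)) ∧
      ∃ y : ℕ → ℝ, (∀ k < na φ, |y k - nse q (lst r) k| ≤ 1 / (4 * q)) ∧ PSat K b φ y} ⊆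
      ⋃ j : Fin (na φ), {r : Fin (na φ) → Fin N | ¬ T K b φ (nse q (lst r)) (1 / (4 * q)) j ∧
        T K b φ (nse q (lst r)) (1 / (4 * q)) (j + 1)} := by
    rintro r ⟨hr1, y, hy1, x, hx1, hx2⟩
    obtain ⟨j, hj, hj1, hj2⟩ := exists_step (T K b φ (nse q (lst r)) (1 / (4 * q))) (na φ)
      (by
        rintro ⟨z, -, hz2, hz3⟩
        apply hr1
        have : z = nse q (lst r) := funext fun k => hz2 k (Nat.zero_le k)
        rw [← this]
        exact hz3)
      (by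
        refine ⟨fun k => if k < na φ then y k else nse q (lst r) k, ?_, ?_, x, hx1, ?_⟩
        · intro k hk
          simp only [if_pos hk]
          exact hy1 k hk
        · intro k hk
          simp only [if_neg (not_lt.2 hk)]
        · refine (hcong 0 x x y _ (fun _ _ => rfl) fun k _ hk => ?_).1 hx2
          rw [zero_add] at hk
          simp only [if_pos hk])
    exact Set.mem_iUnion.2 ⟨⟨j, hj⟩, hj1, hj2⟩
  refine (Set.ncard_le_ncard hsub (Set.toFinite _)).trans ?_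
  refine (Set.ncard_iUnion_le_of_fintype _).trans ?_
  refine (Finset.sum_le_card_nsmul _ _ _ fun j _ =>
    step_bound h1 h3 h4 K b φ q N hq (fun v η j hη hj => hc K b φ v η j hη hj) j).trans ?_
  rw [Finset.card_univ, Fintype.card_fin, smul_eq_mul, ← mul_assoc]
  refine Nat.mul_le_mul_right _ ?_
  have e1 : na φ ≤ 2 ^ L := hna.trans (Nat.lt_two_pow_self).le
  have e2 : 2 * 5 ^ (c * L + 1) ≤ 2 ^ (3 * c * L + 4) := by
    calc 2 * 5 ^ (c * L + 1) ≤ 2 * 8 ^ (c * L + 1) :=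
          Nat.mul_le_mul_left _ (Nat.pow_le_pow_left (by norm_num) _)
      _ = 2 ^ (3 * c * L + 4) := by
          rw [show (8 : ℕ) = 2 ^ 3 by norm_num, ← pow_mul, ← pow_succ']
          congr 1
          ring
  calc na φ * (2 * 5 ^ (c * L + 1)) ≤ 2 ^ L * 2 ^ (3 * c * L + 4) := Nat.mul_le_mul e1 e2
    _ = 2 ^ (L + (3 * c * L + 4)) := (pow_add 2 L (3 * c * L + 4)).symm
    _ ≤ 2 ^ ((3 * c + 5) * L) := by
        refine Nat.pow_le_pow_right (by norm_num) ?_
        nlinarith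

end Pool.Agent.J6H79.SM
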