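import Pool.Agent.J6H79.SM.Stm

/-!
# Perturbed constant terms: number of intervals of a projection
-/

set_option autoImplicit false

namespace Pool.Agent.J6H79.SM.Comp

open MvPolynomial

/-- the sum of the sixth powers -/
def S6 {m : ℕ} (p : Fin m → ℝ) : ℝ := ∑ j, p j ^ 6

lemma S6_nonneg {m : ℕ} (p : Fin m → ℝ) : 0 ≤ S6 p :=
  Finset.sum_nonneg fun j _ => by positivity

lemma cont_S6 {m : ℕ} : Continuous (S6 : (Fin m → ℝ) → ℝ) := by
  unfold S6
  fun_prop

lemma compact_S6 {m : ℕ} (c : ℝ) : IsCompact {p : Fin m → ℝ | S6 p ≤ c} := by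
  have h : IsCompact (Set.pi Set.univ fun _ : Fin m => Set.Icc (-(|c| + 1)) (|c| + 1)) :=
    isCompact_univ_pi fun _ => isCompact_Icc
  refine h.of_isClosed_subset (isClosed_le cont_S6 continuous_const) ?_
  intro p hp j _
  have h1 : p j ^ 6 ≤ c := le_trans (Finset.single_le_sum (f := fun j => p j ^ 6)
    (fun j _ => by positivity) (Finset.mem_univ j)) hp
  rw [Set.mem_Icc, ← abs_le]
  by_contra hcon
  push Not at hcon
  have h2 : 1 ≤ |p j| := by linarith [abs_nonneg c]
  have h3 : |p j| ≤ |p j| ^ 6 := le_self_pow₀ h2 (by norm_num)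
  have h4 : |p j| ^ 6 = p j ^ 6 := by
    rw [← abs_pow]
    exact abs_of_nonneg (by positivity)
  linarith [le_abs_self c]

lemma hasDeriv {m : ℕ} (F : MvPolynomial (Fin m) ℝ) (p : Fin m → ℝ) (j : Fin m) :
    HasDerivAt (fun t => eval (Function.update p j t) F) (eval p (pderiv j F)) (p j) := by
  induction F using MvPolynomial.induction_on with
  | C a => simpa using hasDerivAt_const (p j) a
  | add a b ha hb =>
    have h := ha.add hb
    rw [map_add, map_add]
    refine h.congr_of_eventuallyEq (Filter.Eventually.of_forall fun t => ?_)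
    simp
  | mul_X a i ha =>
    have h1 : HasDerivAt (fun t : ℝ => Function.update p j t i) (if i = j then 1 else 0) (p j) := by
      by_cases h : i = j
      · subst h
        rw [if_pos rfl]
        refine (hasDerivAt_id (p i)).congr_of_eventuallyEq (Filter.Eventually.of_forall fun t => ?_)
        simp
      · rw [if_neg h]
        refine (hasDerivAt_const (p j) (p i)).congr_of_eventuallyEq
          (Filter.Eventually.of_forall fun t => ?_)
        simp [Function.update_of_ne h]
    have h2 := ha.mul h1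
    have e1 : eval p (pderiv j (a * X i)) = eval p (pderiv j a) * Function.update p j (p j) i +
        eval (Function.update p j (p j)) a * (if i = j then 1 else 0) := by
      rw [pderiv_mul, pderiv_X, Pi.single_apply, Function.update_eq_self]
      by_cases h : i = j
      · simp [h]
      · simp [h]
    rw [e1]
    refine h2.congr_of_eventuallyEq (Filter.Eventually.of_forall fun t => ?_)
    simp

lemma deg_pderiv {m : ℕ} (G : MvPolynomial (Fin m) ℝ) (hG : G.totalDegree ≤ 5) (i : Fin m) :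
    (pderiv i G).totalDegree ≤ 4 := by
  unfold totalDegree
  refine Finset.sup_le fun s hs => ?_
  have h1 : s + Finsupp.single i 1 ∈ G.support := by
    rw [mem_support_iff] at hs ⊢
    intro h
    apply hs
    rw [coeff_pderiv, h, zero_mul]
  have h2 := le_totalDegree h1
  have h3 : ((s + Finsupp.single i 1).sum fun _ e => e) = (s.sum fun _ e => e) + 1 := by
    rw [Finsupp.sum_add_index' (fun _ => rfl) (fun _ _ _ => rfl), Finsupp.sum_single_index rfl]
  omega

lemma smono {k : ℕ} {s : ℕ → ℝ} (hs : ∀ i < 2 * k, s i < s (i + 1)) {a b : ℕ} (hab : a ≤ b)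
    (hb : b ≤ 2 * k) : s a ≤ s b := by
  induction b, hab using Nat.le_induction with
  | base => exact le_rfl
  | succ b hab ih => exact (ih (by omega)).trans (hs b (by omega)).le

/-- a positive lower bound on the hyperplanes -/
lemma lower {n : ℕ} (G : MvPolynomial (Fin (n + 1)) ℝ) (hG : ∀ p, 0 ≤ eval p G) (c : ℝ)
    (s : ℕ → ℝ) (k : ℕ)
    (h : ∀ i < k, ∀ z : Fin n → ℝ, eval (Fin.cons (s (2 * i + 1)) z : Fin (n + 1) → ℝ) G ≠ 0) :
    ∃ g : ℝ, 0 < g ∧ ∀ i < k, ∀ p : Fin (n + 1) → ℝ, p 0 = s (2 * i + 1) → S6 p ≤ c →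
      g ≤ eval p G := by
  induction k with
  | zero => exact ⟨1, one_pos, fun i hi => absurd hi (Nat.not_lt_zero i)⟩
  | succ k ih =>
    obtain ⟨g, hg, h1⟩ := ih fun i hi => h i (by omega)
    have hc : IsCompact ({p : Fin (n + 1) → ℝ | S6 p ≤ c} ∩ {p | p 0 = s (2 * k + 1)}) :=
      (compact_S6 c).inter_right (isClosed_eq (continuous_apply 0) continuous_const)
    rcases Set.eq_empty_or_nonempty
      ({p : Fin (n + 1) → ℝ | S6 p ≤ c} ∩ {p | p 0 = s (2 * k + 1)}) with he | hne
    · refine ⟨g, hg, fun i hi p hp hp6 => ?_⟩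
      rcases Nat.lt_succ_iff_lt_or_eq.1 hi with h2 | rfl
      · exact h1 i h2 p hp hp6
      · have hmem : p ∈ ({p : Fin (n + 1) → ℝ | S6 p ≤ c} ∩ {p | p 0 = s (2 * i + 1)}) := ⟨hp6, hp⟩
        rw [he] at hmem
        exact absurd hmem (Set.notMem_empty p)
    · obtain ⟨p₀, hp₀, hmin⟩ := hc.exists_isMinOn hne
        (f := fun p => eval p G) (MvPolynomial.continuous_eval G).continuousOn
      have hpos : 0 < eval p₀ G := by
        refine lt_of_le_of_ne (hG p₀) (Ne.symm ?_)
        have := h k (by omega) (Fin.tail p₀)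
        rwa [← hp₀.2, Fin.cons_self_tail] at this
      refine ⟨min g (eval p₀ G), lt_min hg hpos, fun i hi p hp hp6 => ?_⟩
      rcases Nat.lt_succ_iff_lt_or_eq.1 hi with h2 | rfl
      · exact (min_le_left _ _).trans (h1 i h2 p hp hp6)
      · exact (min_le_right _ _).trans (hmin ⟨hp6, hp⟩)

/-- the closed slab number `l` -/
def Slab {n : ℕ} (s : ℕ → ℝ) (k l : ℕ) : Set (Fin (n + 1) → ℝ) :=
  {p | (∀ i, i < l → s (2 * i + 1) ≤ p 0) ∧ ∀ i, l ≤ i → i < k → p 0 ≤ s (2 * i + 1)}

lemma closed_slab {n : ℕ} (s : ℕ → ℝ) (k l : ℕ) : IsClosed (Slab (n := n) s k l) := by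
  unfold Slab
  simp only [Set.ofPred_and, Set.ofPred_forall]
  exact (isClosed_iInter fun i => isClosed_iInter fun _ =>
    isClosed_le continuous_const (continuous_apply 0)).inter
    (isClosed_iInter fun i => isClosed_iInter fun _ => isClosed_iInter fun _ =>
      isClosed_le (continuous_apply 0) continuous_const)

/-- the critical point in the slab number `l` -/
lemma crit {n : ℕ} (F : MvPolynomial (Fin (n + 1)) ℝ) (s : ℕ → ℝ) (k l : ℕ) (hl : l ≤ k) (c v : ℝ)
    (h1 : ∀ p : Fin (n + 1) → ℝ, c < S6 p → v < eval p F)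
    (h2 : ∀ i < k, ∀ p : Fin (n + 1) → ℝ, p 0 = s (2 * i + 1) → v < eval p F)
    (q : Fin (n + 1) → ℝ) (hq : q ∈ Slab s k l) (hqv : eval q F ≤ v) :
    ∃ p : Fin (n + 1) → ℝ, (∀ i, i < l → s (2 * i + 1) < p 0) ∧
      (∀ i, l ≤ i → i < k → p 0 < s (2 * i + 1)) ∧ ∀ j, eval p (pderiv j F) = 0 := by
  have hc : IsCompact ({p : Fin (n + 1) → ℝ | S6 p ≤ c} ∩ Slab s k l) :=
    (compact_S6 c).inter_right (closed_slab s k l)
  have hq6 : S6 q ≤ c := by
    by_contra h
    exact absurd (h1 q (not_le.1 h)) (not_lt.2 hqv)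
  obtain ⟨p, hp, hmin⟩ := hc.exists_isMinOn ⟨q, hq6, hq⟩
    (f := fun p => eval p F) (MvPolynomial.continuous_eval F).continuousOn
  have hpv : eval p F ≤ v := (hmin ⟨hq6, hq⟩ : eval p F ≤ eval q F).trans hqv
  have hall : ∀ p' ∈ Slab (n := n) s k l, eval p F ≤ eval p' F := by
    intro p' hp'
    by_cases h : S6 p' ≤ c
    · exact hmin ⟨h, hp'⟩
    · exact hpv.trans (h1 p' (not_le.1 h)).le
  have hne : ∀ i < k, p 0 ≠ s (2 * i + 1) := fun i hi h =>
    absurd (h2 i hi p h) (not_lt.2 hpv)
  have a1 : ∀ i, i < l → s (2 * i + 1) < p 0 := fun i hi =>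
    lt_of_le_of_ne (hp.2.1 i hi) (Ne.symm (hne i (by omega)))
  have a2 : ∀ i, l ≤ i → i < k → p 0 < s (2 * i + 1) := fun i hi hi' =>
    lt_of_le_of_ne (hp.2.2 i hi hi') (hne i hi')
  refine ⟨p, a1, a2, fun j => ?_⟩
  refine IsLocalMin.hasDerivAt_eq_zero ?_ (hasDeriv F p j)
  have hcont : Continuous fun t : ℝ => Function.update p j t 0 :=
    (continuous_apply (0 : Fin (n + 1))).comp
      (Continuous.update (continuous_const (y := p)) j continuous_id)
  have hev : ∀ᶠ t in nhds (p j), ∀ i ∈ Finset.range k,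
      (i < l → s (2 * i + 1) < Function.update p j t 0) ∧
      (l ≤ i → Function.update p j t 0 < s (2 * i + 1)) := by
    rw [Filter.eventually_all_finset]
    intro i hi
    rw [Finset.mem_range] at hi
    have e0 : Function.update p j (p j) 0 = p 0 := by rw [Function.update_eq_self]
    rcases lt_or_ge i l with h | h
    · have := (hcont.tendsto (p j)).eventually (lt_mem_nhds (show s (2 * i + 1) < _ by
        rw [e0]; exact a1 i h))
      filter_upwards [this] with t ht
      exact ⟨fun _ => ht, fun h' => absurd h (not_lt.2 h')⟩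
    · have := (hcont.tendsto (p j)).eventually (gt_mem_nhds (show _ < s (2 * i + 1) by
        rw [e0]; exact a2 i h hi))
      filter_upwards [this] with t ht
      exact ⟨fun h' => absurd h' (not_lt.2 h), fun _ => ht⟩
  filter_upwards [hev] with t ht
  rw [Function.update_eq_self]
  refine hall _ ⟨fun i hi => ((ht i (Finset.mem_range.2 (by omega))).1 hi).le, fun i hi hi' =>
    ((ht i (Finset.mem_range.2 hi')).2 hi).le⟩

end Pool.Agent.J6H79.SM.Comp

namespace Pool.Agent.J6H79.SM

open MvPolynomial Pool.Agent.J6H79.SM.Comp in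
/-- Number of intervals of a projection. -/
theorem comp (h : S_count) : S_comp := by
  intro n G hdeg hG k s hs hz hnz
  choose! z hz using hz
  set q : ℕ → Fin (n + 1) → ℝ := fun l => Fin.cons (s (2 * l)) (z l) with hqd
  set c : ℝ := ∑ l ∈ Finset.range (k + 1), S6 (q l) with hc
  have hc0 : 0 ≤ c := Finset.sum_nonneg fun l _ => S6_nonneg _
  have hcl : ∀ l ≤ k, S6 (q l) ≤ c := fun l hl =>
    Finset.single_le_sum (f := fun l => S6 (q l)) (fun l _ => S6_nonneg _)
      (Finset.mem_range.2 (by omega))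
  obtain ⟨g, hg, hlow⟩ := lower G hG c s k hnz
  set ε : ℝ := g / (c + 1) with hε
  have hε0 : 0 < ε := by positivity
  have hεc : ε * c < g := by
    rw [hε, div_mul_eq_mul_div, div_lt_iff₀ (by positivity)]
    nlinarith
  set F : MvPolynomial (Fin (n + 1)) ℝ := G + C ε * ∑ j, X j ^ 6 with hF
  have hFe : ∀ p, eval p F = eval p G + ε * S6 p := by
    intro p
    simp [hF, S6]
  have hFd : ∀ j, pderiv j F = pderiv j G + C (6 * ε) * X j ^ 5 := by
    intro j
    rw [hF, map_add, pderiv_C_mul, map_sum]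
    congr 1
    rw [Finset.sum_eq_single j]
    · rw [pderiv_pow, pderiv_X_self]
      rw [C_mul, show (C (6 : ℝ) : MvPolynomial (Fin (n + 1)) ℝ) = 6 from map_ofNat C 6]
      push_cast
      ring
    · intro i _ hij
      rw [pderiv_pow, pderiv_X_of_ne hij, mul_zero]
    · intro hj
      exact absurd (Finset.mem_univ j) hj
  have h1 : ∀ p : Fin (n + 1) → ℝ, c < S6 p → ε * c < eval p F := by
    intro p hp
    rw [hFe]
    have := hG p
    have := mul_lt_mul_of_pos_left hp hε0
    linarith
  have h2 : ∀ i < k, ∀ p : Fin (n + 1) → ℝ, p 0 = s (2 * i + 1) → ε * c < eval p F := by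
    intro i hi p hp
    rcases le_or_gt (S6 p) c with h3 | h3
    · rw [hFe]
      have := hlow i hi p hp h3
      have := mul_nonneg hε0.le (S6_nonneg p)
      linarith
    · exact h1 p h3
  have hcrit : ∀ l, l ≤ k → ∃ p : Fin (n + 1) → ℝ, (∀ i, i < l → s (2 * i + 1) < p 0) ∧
      (∀ i, l ≤ i → i < k → p 0 < s (2 * i + 1)) ∧ ∀ j, eval p (pderiv j F) = 0 := by
    intro l hl
    refine crit F s k l hl c (ε * c) h1 h2 (q l) ⟨?_, ?_⟩ ?_
    · intro i hi
      show s (2 * i + 1) ≤ s (2 * l)
      exact smono hs (by omega) (by omega)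
    · intro i hi hi'
      show s (2 * l) ≤ s (2 * i + 1)
      exact smono hs (by omega) (by omega)
    · rw [hFe]
      have e1 : eval (q l) G = 0 := hz l hl
      have := mul_le_mul_of_nonneg_left (hcl l hl) hε0.le
      linarith
  choose! P hP1 hP2 hP3 using hcrit
  have hinj : ∀ l ≤ k, ∀ l' ≤ k, l < l' → P l 0 < P l' 0 := by
    intro l hl l' hl' hll
    exact (hP2 l hl l le_rfl (by omega)).trans (hP1 l' hl' l hll)
  have hcard : ((Finset.range (k + 1)).image P).card = k + 1 := by
    rw [Finset.card_image_of_injOn, Finset.card_range]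
    intro l hl l' hl' he
    rw [Finset.coe_range, Set.mem_Iio] at hl hl'
    rcases lt_trichotomy l l' with h3 | h3 | h3
    · exact absurd (congrFun he 0) (hinj l (by omega) l' (by omega) h3).ne
    · exact h3
    · exact absurd (congrFun he 0) (hinj l' (by omega) l (by omega) h3).ne'
  have key := h (n + 1) 5 (fun i => X i ^ 5 + C ((6 * ε)⁻¹) * pderiv i G) ?_
    ((Finset.range (k + 1)).image P) ?_
  · rwa [hcard] at key
  · intro i
    have e1 : (X i ^ 5 - (X i ^ 5 + C ((6 * ε)⁻¹) * pderiv i G) : MvPolynomial (Fin (n + 1)) ℝ) =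
        -(C ((6 * ε)⁻¹) * pderiv i G) := by ring
    rw [e1, totalDegree_neg]
    refine lt_of_le_of_lt (totalDegree_mul _ _) ?_
    rw [totalDegree_C, zero_add]
    exact Nat.lt_succ_of_le (deg_pderiv G hdeg i)
  · intro v hv i
    obtain ⟨l, hl, rfl⟩ := Finset.mem_image.1 hv
    rw [Finset.mem_range] at hl
    have e1 := hP3 l (by omega) i
    rw [hFd] at e1
    simp only [map_add, map_mul, map_pow, eval_X, eval_C] at e1 ⊢
    have h6 : (6 * ε) ≠ 0 := by positivity
    field_simp
    linarith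

end Pool.Agent.J6H79.SM
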