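import Pool.Agent.J6H79.SM.Stm
import Mathlib

/-! Number of common zeros. -/

set_option autoImplicit false

namespace Pool.Agent.J6H79.SM

namespace Count

open MvPolynomial

variable {n : ℕ}

/-- evaluation on the points of `V` -/
noncomputable def ev (V : Finset (Fin n → ℝ)) : MvPolynomial (Fin n) ℝ →ₗ[ℝ] (V → ℝ) :=
  LinearMap.pi fun v => (MvPolynomial.aeval (R := ℝ) v.1).toLinearMap

theorem ev_apply (V : Finset (Fin n → ℝ)) (p : MvPolynomial (Fin n) ℝ) (v : V) :
    ev V p v = MvPolynomial.eval v.1 p := by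
  simp [ev, MvPolynomial.aeval_eq_eval]

/-- the functions given by the reduced monomials -/
noncomputable def fam (V : Finset (Fin n → ℝ)) (e : ℕ) (m : Fin n → Fin e) : V → ℝ :=
  fun v => ∏ i, v.1 i ^ (m i : ℕ)

theorem mem_span {e : ℕ} {g : Fin n → MvPolynomial (Fin n) ℝ}
    (hg : ∀ i, (MvPolynomial.X i ^ e - g i).totalDegree < e) {V : Finset (Fin n → ℝ)}
    (hV : ∀ v ∈ V, ∀ i, MvPolynomial.eval v (g i) = 0) (d : ℕ) :
    ∀ p : MvPolynomial (Fin n) ℝ, p.totalDegree ≤ d →
      ev V p ∈ Submodule.span ℝ (Set.range (fam V e)) := by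
  induction d using Nat.strong_induction_on with
  | _ d ih =>
    intro p hp
    rw [p.as_sum, map_sum]
    refine Submodule.sum_mem _ fun m hm => ?_
    have hmd : (m.sum fun _ e => e) ≤ d := (le_totalDegree hm).trans hp
    by_cases hall : ∀ i, m i < e
    · have : ev V (monomial m (coeff m p)) = coeff m p • fam V e (fun i => ⟨m i, hall i⟩) := by
        funext v
        rw [ev_apply, eval_monomial, Pi.smul_apply, smul_eq_mul]
        congr 1
        rw [Finsupp.prod_fintype]
        · rfl
        · intro i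
          exact pow_zero _
      rw [this]
      exact Submodule.smul_mem _ _ (Submodule.subset_span ⟨_, rfl⟩)
    · push Not at hall
      obtain ⟨i, hi⟩ := hall
      set m' : Fin n →₀ ℕ := m - Finsupp.single i e with hm'
      have hmm : m = m' + Finsupp.single i e := by
        rw [hm', tsub_add_cancel_of_le]
        rw [Finsupp.single_le_iff]
        exact hi
      have hq : ev V (monomial m (coeff m p)) =
          ev V (monomial m' (coeff m p) * (X i ^ e - g i)) := by
        have h3 : monomial m (coeff m p) = monomial m' (coeff m p) * X i ^ e := by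
          rw [← monomial_add_single, ← hmm]
        funext v
        rw [ev_apply, ev_apply, h3, map_mul, map_mul, map_sub, hV v.1 v.2 i, sub_zero]
      rw [hq]
      have hdeg : (m.sum fun _ e => e) = (m'.sum fun _ e => e) + e := by
        have h4 : (m.sum fun _ e => e) = ((m' + Finsupp.single i e).sum fun _ e => e) :=
          congrArg (fun q : Fin n →₀ ℕ => q.sum fun _ e => e) hmm
        rw [h4, Finsupp.sum_add_index' (fun _ => rfl) (fun _ _ _ => rfl), Finsupp.sum_single_index rfl]
      have h1 : (monomial m' (coeff m p) * (X i ^ e - g i)).totalDegree ≤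
          (m'.sum fun _ e => e) + (X i ^ e - g i).totalDegree :=
        (totalDegree_mul _ _).trans (Nat.add_le_add_right (totalDegree_monomial_le _ _) _)
      have h2 := hg i
      exact ih _ (by omega) _ le_rfl

theorem span_top {e : ℕ} {g : Fin n → MvPolynomial (Fin n) ℝ}
    (hg : ∀ i, (MvPolynomial.X i ^ e - g i).totalDegree < e) {V : Finset (Fin n → ℝ)}
    (hV : ∀ v ∈ V, ∀ i, MvPolynomial.eval v (g i) = 0) :
    Submodule.span ℝ (Set.range (fam V e)) = ⊤ := by
  classical
  rw [eq_top_iff]
  intro f _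
  have hlin : ∀ v w : Fin n → ℝ, ∃ q : MvPolynomial (Fin n) ℝ, v ≠ w →
      MvPolynomial.eval v q = 1 ∧ MvPolynomial.eval w q = 0 := by
    intro v w
    by_cases h : v = w
    · exact ⟨0, fun h' => absurd h h'⟩
    · obtain ⟨i, hi⟩ := Function.ne_iff.1 h
      refine ⟨C ((v i - w i)⁻¹) * (X i - C (w i)), fun _ => ⟨?_, ?_⟩⟩
      · rw [map_mul, map_sub, eval_C, eval_C, eval_X]
        exact inv_mul_cancel₀ (sub_ne_zero.2 hi)
      · rw [map_mul, map_sub, eval_C, eval_C, eval_X, sub_self, mul_zero]
  choose q hq using hlin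
  let δ : (Fin n → ℝ) → MvPolynomial (Fin n) ℝ := fun v => ∏ w ∈ V.erase v, q v w
  have hδ1 : ∀ v, MvPolynomial.eval v (δ v) = 1 := by
    intro v
    simp only [δ, map_prod]
    refine Finset.prod_eq_one fun w hw => ?_
    exact (hq v w (fun h => (Finset.mem_erase.1 hw).1 h.symm)).1
  have hδ0 : ∀ v, ∀ u ∈ V, u ≠ v → MvPolynomial.eval u (δ v) = 0 := by
    intro v u hu huv
    simp only [δ, map_prod]
    exact Finset.prod_eq_zero (Finset.mem_erase.2 ⟨huv, hu⟩) (hq v u huv.symm).2
  have hf : f = ∑ v : V, f v • ev V (δ v.1) := by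
    funext u
    rw [Finset.sum_apply, Finset.sum_eq_single u]
    · rw [Pi.smul_apply, ev_apply, hδ1, smul_eq_mul, mul_one]
    · intro v _ hvu
      rw [Pi.smul_apply, ev_apply, hδ0 v.1 u.1 u.2 (fun h => hvu (Subtype.ext h.symm)), smul_zero]
    · intro h
      exact absurd (Finset.mem_univ _) h
  rw [hf]
  exact Submodule.sum_mem _ fun v _ => Submodule.smul_mem _ _ (mem_span hg hV _ _ le_rfl)

theorem main {e : ℕ} {g : Fin n → MvPolynomial (Fin n) ℝ}
    (hg : ∀ i, (MvPolynomial.X i ^ e - g i).totalDegree < e) {V : Finset (Fin n → ℝ)}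
    (hV : ∀ v ∈ V, ∀ i, MvPolynomial.eval v (g i) = 0) : V.card ≤ e ^ n := by
  have h1 := finrank_range_le_card (R := ℝ) (fam V e)
  rw [Set.finrank, span_top hg hV, finrank_top, Module.finrank_fintype_fun_eq_card] at h1
  simpa using h1

end Count

theorem count : S_count := fun _ _ _ hg _ hV => Count.main hg hV

end Pool.Agent.J6H79.SM
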