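import Pool.Agent.J6H79.SM.Stm

/-!
# Exact evaluation of a formula by the stack machine
-/

set_option autoImplicit false

namespace Pool.Agent.J6H79.SM.Exact

open Pool.Agent.NPC Pool.Agent.NPC.ER Pool.Agent.J6H79.FR Pool.Agent.NPC.ER.J6H79
open Pool.Agent.J6H79.SM

/-- the environment -/
abbrev env (K W E : ℕ) (C : List (ℕ × ℕ × ℕ)) : Env := (1, K, 0, W, E, E, C)

/-- the value of a term is exact, with a denominator that is not too large -/
structure TE (K W E : ℕ) (C : List (ℕ × ℕ × ℕ)) (t : Tm) : Prop where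
  w : 0 < (tv (env K W E C) t).2.2.1
  le : (tv (env K W E C) t).2.2.1 ≤ W ^ tsz t
  val : t.eval (cp W C) = (((tv (env K W E C) t).1 : ℝ) -
    (tv (env K W E C) t).2.1) / (tv (env K W E C) t).2.2.1

theorem te {K W : ℕ} (E : ℕ) (C : List (ℕ × ℕ × ℕ)) (hW : 1 ≤ W) (t : Tm)
    (ht : ∀ s ∈ t.toks, s.code.2 < K) : TE K W E C t := by
  induction t with
  | var i =>
    have hi : i < K := ht (Tok.var i) (by simp [Tm.toks])
    have h0 : tv (env K W E C) (.var i) = ((lk C i).1, (lk C i).2, W, 1, i / 1, i / 1) := if_pos hi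
    refine ⟨?_, ?_, ?_⟩ <;> rw [h0]
    · exact hW
    · show W ≤ W ^ 1
      rw [pow_one]
    · rfl
  | zero =>
    refine ⟨Nat.one_pos, Nat.one_le_pow _ _ hW, ?_⟩
    simp [tv, vcst, Tm.eval]
  | one =>
    refine ⟨Nat.one_pos, Nat.one_le_pow _ _ hW, ?_⟩
    simp [tv, vcst, Tm.eval]
  | add s t hs ht' =>
    have hs := hs fun x hx => ht x (by simp [Tm.toks, hx])
    have ht := ht' fun x hx => ht x (by simp [Tm.toks, hx])
    refine ⟨Nat.mul_pos hs.w ht.w, ?_, ?_⟩
    · show _ * _ ≤ W ^ (tsz s + tsz t + 1)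
      refine (Nat.mul_le_mul hs.le ht.le).trans ?_
      rw [← pow_add]
      exact Nat.pow_le_pow_right hW (Nat.le_succ _)
    · have h1 : ((tv (env K W E C) s).2.2.1 : ℝ) ≠ 0 := Nat.cast_ne_zero.2 hs.w.ne'
      have h2 : ((tv (env K W E C) t).2.2.1 : ℝ) ≠ 0 := Nat.cast_ne_zero.2 ht.w.ne'
      simp only [Tm.eval, hs.val, ht.val, tv, vadd]
      push_cast
      exact div_sub_aux h1 h2
  | neg t ht' =>
    have ht := ht' fun x hx => ht x (by simp [Tm.toks, hx])
    refine ⟨ht.w, ht.le.trans (Nat.pow_le_pow_right hW (Nat.le_succ _)), ?_⟩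
    simp only [Tm.eval, ht.val, tv, vneg]
    ring
  | mul s t hs ht' =>
    have hs := hs fun x hx => ht x (by simp [Tm.toks, hx])
    have ht := ht' fun x hx => ht x (by simp [Tm.toks, hx])
    refine ⟨Nat.mul_pos hs.w ht.w, ?_, ?_⟩
    · show _ * _ ≤ W ^ (tsz s + tsz t + 1)
      refine (Nat.mul_le_mul hs.le ht.le).trans ?_
      rw [← pow_add]
      exact Nat.pow_le_pow_right hW (Nat.le_succ _)
    · have h1 : ((tv (env K W E C) s).2.2.1 : ℝ) ≠ 0 := Nat.cast_ne_zero.2 hs.w.ne'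
      have h2 : ((tv (env K W E C) t).2.2.1 : ℝ) ≠ 0 := Nat.cast_ne_zero.2 ht.w.ne'
      simp only [Tm.eval, hs.val, ht.val, tv, vmul]
      push_cast
      field_simp
      ring

theorem mul_le_iff {n w E : ℕ} (h : w < E) : n * E ≤ w ↔ n = 0 := by
  constructor
  · intro h1
    by_contra h2
    have h3 : 1 * E ≤ n * E := Nat.mul_le_mul_right _ (Nat.one_le_iff_ne_zero.2 h2)
    omega
  · rintro rfl
    simp

theorem le_mul_iff {n w E : ℕ} (h0 : 0 < w) (h : w < E) : w ≤ n * E ↔ 0 < n := by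
  constructor
  · intro h1
    by_contra h2
    have h3 : n = 0 := by omega
    subst h3
    omega
  · intro h1
    have h3 : 1 * E ≤ n * E := Nat.mul_le_mul_right _ h1
    omega

/-- the difference of the two sides of an atomic formula -/
theorem atom {K W E : ℕ} {C : List (ℕ × ℕ × ℕ)} (hW : 1 ≤ W) (s t : Tm)
    (h1 : ∀ x ∈ s.toks, x.code.2 < K) (h2 : ∀ x ∈ t.toks, x.code.2 < K)
    (hE : W ^ (tsz s + tsz t + 1 + 1) < E) :
    (zer (env K W E C) (tv (env K W E C) (.add s (.neg t))) = true ↔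
      s.eval (cp W C) = t.eval (cp W C)) ∧
    (ng (env K W E C) (tv (env K W E C) (.add s (.neg t))) = true ↔
      s.eval (cp W C) < t.eval (cp W C)) := by
  have hK0 : 0 < K := by
    cases s with
    | var i => exact lt_of_le_of_lt (Nat.zero_le _) (h1 (Tok.var i) (by simp [Tm.toks]))
    | zero => exact lt_of_le_of_lt (Nat.zero_le _) (h1 Tok.zero (by simp [Tm.toks]))
    | one => exact lt_of_le_of_lt (Nat.zero_le _) (h1 Tok.one (by simp [Tm.toks]))
    | add a b => exact lt_of_le_of_lt (Nat.zero_le _) (h1 Tok.add (by simp [Tm.toks]))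
    | neg a => exact lt_of_le_of_lt (Nat.zero_le _) (h1 Tok.neg (by simp [Tm.toks]))
    | mul a b => exact lt_of_le_of_lt (Nat.zero_le _) (h1 Tok.mul (by simp [Tm.toks]))
  have h := te (K := K) E C hW (.add s (.neg t)) (by
    intro x hx
    simp only [Tm.toks, List.mem_append, List.mem_singleton] at hx
    rcases hx with (hx | hx | hx) | hx
    · exact h1 x hx
    · exact h2 x hx
    · subst hx
      exact hK0
    · subst hx
      exact hK0)
  have hv := h.val
  have hw := h.w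
  have hlt : (tv (env K W E C) (.add s (.neg t))).2.2.1 < E := by
    refine lt_of_le_of_lt h.le (lt_of_le_of_lt (le_of_eq ?_) hE)
    show W ^ (tsz s + (tsz t + 1) + 1) = _
    congr 1
  generalize tv (env K W E C) (.add s (.neg t)) = u at hv hw hlt
  have hv' : s.eval (cp W C) - t.eval (cp W C) = ((u.1 : ℝ) - u.2.1) / u.2.2.1 := by
    rw [← hv]
    simp only [Tm.eval]
    ring
  have hwR : (0 : ℝ) < (u.2.2.1 : ℝ) := Nat.cast_pos.2 hw
  constructor
  · unfold zer
    rw [Bool.and_eq_true, decide_eq_true_eq, decide_eq_true_eq]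
    show (_ * E ≤ _ ∧ _ * E ≤ _) ↔ _
    rw [mul_le_iff hlt, mul_le_iff hlt, ← sub_eq_zero (a := Tm.eval (cp W C) s), hv', div_eq_zero_iff]
    constructor
    · rintro ⟨h3, h4⟩
      left
      have : u.1 = u.2.1 := by omega
      rw [this, sub_self]
    · rintro (h3 | h3)
      · have : u.1 = u.2.1 := by exact_mod_cast sub_eq_zero.1 h3
        omega
      · exact absurd h3 hwR.ne'
  · unfold ng
    rw [decide_eq_true_eq]
    show _ ≤ _ * E ↔ _
    rw [le_mul_iff hw hlt, ← sub_neg (a := Tm.eval (cp W C) s), hv', div_lt_iff₀ hwR, zero_mul, sub_neg,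
      Nat.cast_lt]
    omega

theorem fe {K W E : ℕ} {C : List (ℕ × ℕ × ℕ)} (hW : 1 ≤ W) (φ : Fm)
    (hK : ∀ x ∈ φ.toks, x.code.2 < K) (hE : W ^ (φ.toks.length + 1) < E) :
    (fv (env K W E C) φ).1 ≤ 1 ∧ ((fv (env K W E C) φ).1 = 1 ↔ φ.Holds (cp W C)) := by
  induction φ with
  | eq s t =>
    have h := atom (C := C) hW s t (fun x hx => hK x (by simp [Fm.toks, hx]))
      (fun x hx => hK x (by simp [Fm.toks, hx])) (by simpa [Fm.toks, tsz_eq, add_assoc] using hE)
    refine ⟨ite_le_one, ?_⟩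
    show (if _ then 1 else 0) = 1 ↔ _
    rw [ite_eq_one, if_pos rfl, h.1]
    rfl
  | lt s t =>
    have h := atom (C := C) hW s t (fun x hx => hK x (by simp [Fm.toks, hx]))
      (fun x hx => hK x (by simp [Fm.toks, hx])) (by simpa [Fm.toks, tsz_eq, add_assoc] using hE)
    refine ⟨ite_le_one, ?_⟩
    show (if _ then 1 else 0) = 1 ↔ _
    rw [ite_eq_one, if_neg (by norm_num), if_pos rfl, h.2]
    rfl
  | le s t =>
    have h := atom (C := C) hW s t (fun x hx => hK x (by simp [Fm.toks, hx]))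
      (fun x hx => hK x (by simp [Fm.toks, hx])) (by simpa [Fm.toks, tsz_eq, add_assoc] using hE)
    refine ⟨ite_le_one, ?_⟩
    show (if _ then 1 else 0) = 1 ↔ _
    rw [ite_eq_one, if_neg (by norm_num), if_neg (by norm_num), Bool.or_eq_true, h.1, h.2]
    show _ ↔ _ ≤ _
    rw [le_iff_eq_or_lt]
  | not φ ih =>
    have h := ih (fun x hx => hK x (by simp [Fm.toks, hx]))
      (lt_of_le_of_lt (Nat.pow_le_pow_right hW (by simp [Fm.toks])) hE)
    refine ⟨Nat.sub_le _ _, ?_⟩
    show 1 - _ = 1 ↔ ¬ _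
    rw [← h.2]
    have := h.1
    omega
  | and φ ψ ih1 ih2 =>
    have h := ih1 (fun x hx => hK x (by simp [Fm.toks, hx]))
      (lt_of_le_of_lt (Nat.pow_le_pow_right hW (by simp [Fm.toks])) hE)
    have h' := ih2 (fun x hx => hK x (by simp [Fm.toks, hx]))
      (lt_of_le_of_lt (Nat.pow_le_pow_right hW (by simp [Fm.toks]; omega)) hE)
    refine ⟨(min_le_left _ _).trans h.1, ?_⟩
    have e1 := h.1
    have e2 := h'.1
    show min _ _ = 1 ↔ _ ∧ _
    rw [← h.2, ← h'.2]
    omega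
  | or φ ψ ih1 ih2 =>
    have h := ih1 (fun x hx => hK x (by simp [Fm.toks, hx]))
      (lt_of_le_of_lt (Nat.pow_le_pow_right hW (by simp [Fm.toks])) hE)
    have h' := ih2 (fun x hx => hK x (by simp [Fm.toks, hx]))
      (lt_of_le_of_lt (Nat.pow_le_pow_right hW (by simp [Fm.toks]; omega)) hE)
    refine ⟨max_le h.1 h'.1, ?_⟩
    have e1 := h.1
    have e2 := h'.1
    show max _ _ = 1 ↔ _ ∨ _
    rw [← h.2, ← h'.2]
    omega

end Pool.Agent.J6H79.SM.Exact

namespace Pool.Agent.J6H79.SM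

open Pool.Agent.NPC Pool.Agent.NPC.ER Pool.Agent.J6H79.FR Pool.Agent.NPC.ER.J6H79

theorem exact_ok : S_exact := by
  intro W K E C φ hW hK hE
  rw [foldl_fm]
  exact (Exact.fe hW φ hK hE).2

end Pool.Agent.J6H79.SM
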