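import Pool.Agent.J6H79.SM.Stm

/-!
# Random perturbation of the constant terms: counting on a line and by fibres
-/

set_option autoImplicit false

namespace Pool.Agent.J6H79.SM

namespace Line

/-- Two interlacing sequences. -/
theorem inter {U : Set ℝ} {B : ℕ}
    (H : ∀ (k : ℕ) (s : ℕ → ℝ), (∀ i < 2 * k, s i < s (i + 1)) → (∀ i ≤ k, s (2 * i) ∈ U) →
      (∀ i < k, s (2 * i + 1) ∉ U) → k + 1 ≤ B)
    (k : ℕ) (P Q : ℕ → ℝ) (h1 : ∀ i < k, P i < Q i) (h2 : ∀ i < k, Q i < P (i + 1))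
    (h3 : ∀ i ≤ k, P i ∈ U) (h4 : ∀ i < k, Q i ∉ U) : k + 1 ≤ B := by
  have e1 : ∀ i : ℕ, (2 * i) / 2 = i := fun i => by omega
  have e2 : ∀ i : ℕ, (2 * i + 1) / 2 = i := fun i => by omega
  have m1 : ∀ i : ℕ, (2 * i) % 2 = 0 := fun i => by omega
  have m2 : ∀ i : ℕ, ¬ (2 * i + 1) % 2 = 0 := fun i => by omega
  refine H k (fun n => if n % 2 = 0 then P (n / 2) else Q (n / 2)) ?_ ?_ ?_
  · intro i hi
    rcases Nat.even_or_odd' i with ⟨c, hc | hc⟩
    · subst hc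
      simp only [m1, m2, e1, e2, if_true, if_false]
      exact h1 c (by omega)
    · subst hc
      have e3 : 2 * c + 1 + 1 = 2 * (c + 1) := by ring
      simp only [e3, m1, m2, e1, e2, if_true, if_false]
      exact h2 c (by omega)
  · intro i hi
    simp only [m1, e1, if_true]
    exact h3 i hi
  · intro i hi
    simp only [m2, e2, if_false]
    exact h4 i hi

/-- An increasing enumeration of some elements of a finite set of numbers. -/
theorem enum {N B : ℕ} (S : Set (Fin N)) (h : B < S.ncard) :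
    ∃ f : ℕ → ℕ, (∀ i ≤ B, ∃ a : Fin N, (a : ℕ) = f i ∧ a ∈ S) ∧ ∀ i < B, f i + 1 ≤ f (i + 1) := by
  classical
  have hS : (S.toFinset).card = S.ncard := (Set.ncard_eq_toFinset_card' S).symm
  have h' : B + 1 ≤ (S.toFinset).card := by omega
  refine ⟨fun i => if hi : i < B + 1 then
    ((Finset.orderEmbOfCardLe S.toFinset h' ⟨i, hi⟩ : Fin N) : ℕ) else 0, ?_, ?_⟩
  · intro i hi
    have hi' : i < B + 1 := by omega
    refine ⟨Finset.orderEmbOfCardLe S.toFinset h' ⟨i, hi'⟩, ?_, ?_⟩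
    · simp only [hi', dif_pos]
    · have := Finset.orderEmbOfCardLe_mem S.toFinset h' ⟨i, hi'⟩
      simpa using this
  · intro i hi
    have hi1 : i < B + 1 := by omega
    have hi2 : i + 1 < B + 1 := by omega
    simp only [hi1, hi2, dif_pos]
    have hlt : Finset.orderEmbOfCardLe S.toFinset h' ⟨i, hi1⟩ <
        Finset.orderEmbOfCardLe S.toFinset h' ⟨i + 1, hi2⟩ := by
      apply (Finset.orderEmbOfCardLe S.toFinset h').strictMono
      simp [Fin.lt_def]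
    exact hlt

theorem right {U : Set ℝ} {B q N : ℕ} (hq : 1 ≤ q)
    (H : ∀ (k : ℕ) (s : ℕ → ℝ), (∀ i < 2 * k, s i < s (i + 1)) → (∀ i ≤ k, s (2 * i) ∈ U) →
      (∀ i < k, s (2 * i + 1) ∉ U) → k + 1 ≤ B) :
    {a : Fin N | ((a : ℕ) : ℝ) / q ∉ U ∧
      ∃ s ∈ U, ((a : ℕ) : ℝ) / q < s ∧ s ≤ ((a : ℕ) : ℝ) / q + 1 / (4 * q)}.ncard ≤ B := by
  by_contra hcon
  push Not at hcon
  obtain ⟨f, hf, hinc⟩ := enum _ hcon
  have hq' : (0 : ℝ) < q := by exact_mod_cast hq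
  have hf1 : ∀ i ≤ B, ((f i : ℕ) : ℝ) / q ∉ U := by
    intro i hi
    obtain ⟨a, ha, ha'⟩ := hf i hi
    rw [← ha]
    exact ha'.1
  have hf2 : ∀ i, ∃ s : ℝ, i ≤ B → s ∈ U ∧ ((f i : ℕ) : ℝ) / q < s ∧
      s ≤ ((f i : ℕ) : ℝ) / q + 1 / (4 * q) := by
    intro i
    by_cases hi : i ≤ B
    · obtain ⟨a, ha, ha'⟩ := hf i hi
      obtain ⟨s, hs⟩ := ha'.2
      exact ⟨s, fun _ => by rw [← ha]; exact hs⟩
    · exact ⟨0, fun h => absurd h hi⟩
  choose P hP using hf2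
  have hstep : ∀ i < B, ((f i : ℕ) : ℝ) / q + 1 / q ≤ ((f (i + 1) : ℕ) : ℝ) / q := by
    intro i hi
    rw [← add_div]
    apply div_le_div_of_nonneg_right _ hq'.le
    exact_mod_cast hinc i hi
  have hquart : (1 : ℝ) / (4 * q) < 1 / q := by
    rw [div_lt_div_iff₀ (by positivity) hq']
    linarith
  have := inter H B P (fun i => ((f (i + 1) : ℕ) : ℝ) / q)
    (fun i hi => by
      have h1 := (hP i hi.le).2.2
      have h2 := hstep i hi
      show P i < ((f (i + 1) : ℕ) : ℝ) / q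
      linarith)
    (fun i hi => (hP (i + 1) hi).2.1)
    (fun i hi => (hP i hi).1)
    (fun i hi => hf1 (i + 1) hi)
  omega

theorem left {U : Set ℝ} {B q N : ℕ} (hq : 1 ≤ q)
    (H : ∀ (k : ℕ) (s : ℕ → ℝ), (∀ i < 2 * k, s i < s (i + 1)) → (∀ i ≤ k, s (2 * i) ∈ U) →
      (∀ i < k, s (2 * i + 1) ∉ U) → k + 1 ≤ B) :
    {a : Fin N | ((a : ℕ) : ℝ) / q ∉ U ∧
      ∃ s ∈ U, s < ((a : ℕ) : ℝ) / q ∧ ((a : ℕ) : ℝ) / q ≤ s + 1 / (4 * q)}.ncard ≤ B := by
  by_contra hcon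
  push Not at hcon
  obtain ⟨f, hf, hinc⟩ := enum _ hcon
  have hq' : (0 : ℝ) < q := by exact_mod_cast hq
  have hf1 : ∀ i ≤ B, ((f i : ℕ) : ℝ) / q ∉ U := by
    intro i hi
    obtain ⟨a, ha, ha'⟩ := hf i hi
    rw [← ha]
    exact ha'.1
  have hf2 : ∀ i, ∃ s : ℝ, i ≤ B → s ∈ U ∧ s < ((f i : ℕ) : ℝ) / q ∧
      ((f i : ℕ) : ℝ) / q ≤ s + 1 / (4 * q) := by
    intro i
    by_cases hi : i ≤ B
    · obtain ⟨a, ha, ha'⟩ := hf i hi
      obtain ⟨s, hs⟩ := ha'.2
      exact ⟨s, fun _ => by rw [← ha]; exact hs⟩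
    · exact ⟨0, fun h => absurd h hi⟩
  choose P hP using hf2
  have hstep : ∀ i < B, ((f i : ℕ) : ℝ) / q + 1 / q ≤ ((f (i + 1) : ℕ) : ℝ) / q := by
    intro i hi
    rw [← add_div]
    apply div_le_div_of_nonneg_right _ hq'.le
    exact_mod_cast hinc i hi
  have hquart : (1 : ℝ) / (4 * q) < 1 / q := by
    rw [div_lt_div_iff₀ (by positivity) hq']
    linarith
  have := inter H B P (fun i => ((f i : ℕ) : ℝ) / q)
    (fun i hi => (hP i hi.le).2.1)
    (fun i hi => by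
      have h1 := (hP (i + 1) hi).2.2
      have h2 := hstep i hi
      show ((f i : ℕ) : ℝ) / q < P (i + 1)
      linarith)
    (fun i hi => (hP i hi).1)
    (fun i hi => hf1 i hi.le)
  omega

end Line

theorem line : S_line := by
  intro U B q N hq H
  have hsub : {a : Fin N | ((a : ℕ) : ℝ) / q ∉ U ∧
      ∃ s ∈ U, |s - ((a : ℕ) : ℝ) / q| ≤ 1 / (4 * q)} ⊆
      {a : Fin N | ((a : ℕ) : ℝ) / q ∉ U ∧
        ∃ s ∈ U, ((a : ℕ) : ℝ) / q < s ∧ s ≤ ((a : ℕ) : ℝ) / q + 1 / (4 * q)} ∪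
      {a : Fin N | ((a : ℕ) : ℝ) / q ∉ U ∧
        ∃ s ∈ U, s < ((a : ℕ) : ℝ) / q ∧ ((a : ℕ) : ℝ) / q ≤ s + 1 / (4 * q)} := by
    rintro a ⟨ha, s, hs, hsa⟩
    rw [abs_le] at hsa
    rcases lt_trichotomy s (((a : ℕ) : ℝ) / q) with h | h | h
    · exact Or.inr ⟨ha, s, hs, h, by linarith [hsa.1]⟩
    · exact absurd (h ▸ hs) ha
    · exact Or.inl ⟨ha, s, hs, h, by linarith [hsa.2]⟩
  have h1 := Set.ncard_le_ncard hsub (Set.toFinite _)
  have h2 := Set.ncard_union_le {a : Fin N | ((a : ℕ) : ℝ) / q ∉ U ∧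
        ∃ s ∈ U, ((a : ℕ) : ℝ) / q < s ∧ s ≤ ((a : ℕ) : ℝ) / q + 1 / (4 * q)}
      {a : Fin N | ((a : ℕ) : ℝ) / q ∉ U ∧
        ∃ s ∈ U, s < ((a : ℕ) : ℝ) / q ∧ ((a : ℕ) : ℝ) / q ≤ s + 1 / (4 * q)}
  have h3 := Line.right (N := N) hq H
  have h4 := Line.left (N := N) hq H
  omega

theorem fib : S_fib := by
  classical
  intro m N D j S h
  have hcard : Fintype.card ({k : Fin m // k ≠ j} → Fin N) = N ^ (m - 1) := by
    rw [Fintype.card_fun, Fintype.card_fin, Fintype.card_subtype_compl]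
    simp
  rw [Set.ncard_eq_toFinset_card' S]
  have key := Finset.card_le_mul_card_image
    (f := fun (x : Fin m → Fin N) (k : {k : Fin m // k ≠ j}) => x k.1) S.toFinset D
    (by
      intro g hg
      rw [Finset.mem_image] at hg
      obtain ⟨x0, hx0, rfl⟩ := hg
      refine le_trans ?_ (h x0)
      rw [Set.ncard_eq_toFinset_card']
      refine Finset.card_le_card_of_injOn (fun x => x j) ?_ ?_
      · intro x hx
        have hx' := Finset.mem_filter.mp (Finset.mem_coe.mp hx)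
        have hup : Function.update x0 j (x j) = x := by
          funext k
          by_cases hk : k = j
          · subst hk; simp
          · rw [Function.update_of_ne hk]
            exact (congrFun hx'.2 ⟨k, hk⟩).symm
        simp only [Set.coe_toFinset, Set.mem_setOf_eq]
        rw [hup]
        simpa using hx'.1
      · intro x hx y hy hxy
        have hx' := Finset.mem_filter.mp (Finset.mem_coe.mp hx)
        have hy' := Finset.mem_filter.mp (Finset.mem_coe.mp hy)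
        funext k
        by_cases hk : k = j
        · subst hk; exact hxy
        · exact congrFun (hx'.2.trans hy'.2.symm) ⟨k, hk⟩)
  refine key.trans (Nat.mul_le_mul_left _ ?_)
  rw [← hcard]
  exact Finset.card_le_univ _

end Pool.Agent.J6H79.SM
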