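import Pool.Agent.J6H79.SM.Stm

/-!
# A system of equations is one equation with a nonnegative polynomial
-/

set_option autoImplicit false

namespace Pool.Agent.J6H79.SM

open MvPolynomial

namespace ListRep

/-- the sum of the squares -/
noncomputable def sq {σ τ : Type} (ρ : σ → τ) (L : List (MvPolynomial σ ℝ)) : MvPolynomial τ ℝ :=
  (L.map fun p => (rename ρ p) ^ 2).sum

theorem deg {σ τ : Type} (ρ : σ → τ) (L : List (MvPolynomial σ ℝ))
    (h : ∀ p ∈ L, p.totalDegree ≤ 2) : (sq ρ L).totalDegree ≤ 5 := by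
  induction L with
  | nil => simp [sq]
  | cons a L ih =>
    have ih' := ih fun p hp => h p (List.mem_cons_of_mem _ hp)
    rw [sq] at ih' ⊢
    rw [List.map_cons, List.sum_cons]
    refine (totalDegree_add _ _).trans (max_le ?_ ih')
    refine (totalDegree_pow _ _).trans ?_
    have h1 := totalDegree_rename_le ρ a
    have h2 := h a List.mem_cons_self
    omega

theorem both {σ τ : Type} (ρ : σ → τ) (L : List (MvPolynomial σ ℝ)) (x : τ → ℝ) :
    0 ≤ eval x (sq ρ L) ∧ (eval x (sq ρ L) = 0 ↔ ∀ p ∈ L, eval (x ∘ ρ) p = 0) := by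
  induction L with
  | nil => simp [sq]
  | cons a L ih =>
    obtain ⟨h1, h2⟩ := ih
    have h3 : eval x (sq ρ (a :: L)) = eval (x ∘ ρ) a ^ 2 + eval x (sq ρ L) := by
      rw [sq, sq, List.map_cons, List.sum_cons, map_add, map_pow, eval_rename]
    rw [h3]
    refine ⟨add_nonneg (sq_nonneg _) h1, ?_⟩
    rw [add_eq_zero_iff_of_nonneg (sq_nonneg _) h1, h2, List.forall_mem_cons,
      pow_eq_zero_iff two_ne_zero]

end ListRep

open ListRep in
theorem list_rep : S_list := by
  classical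
  intro n L B i0 hL hB
  have hm : (B.erase i0).card ≤ n := (Finset.card_erase_le).trans hB
  let e : (B.erase i0) ≃ Fin (B.erase i0).card := (B.erase i0).equivFin
  let ρ : ℕ ⊕ ℕ → Fin ((B.erase i0).card + 1) := fun i =>
    if h : i ∈ B.erase i0 then (e ⟨i, h⟩).succ else 0
  have hρ0 : ρ i0 = 0 := dif_neg (Finset.notMem_erase i0 B)
  refine ⟨(B.erase i0).card, hm, ListRep.sq ρ L, ListRep.deg ρ L fun p hp => (hL p hp).1,
    fun p => (ListRep.both ρ L p).1, fun s => ?_⟩
  constructor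
  · rintro ⟨w, hw, hp⟩
    refine ⟨fun j => w (e.symm j), (ListRep.both ρ L _).2.2 fun p hpL => ?_⟩
    rw [← hp p hpL]
    refine eval₂Hom_congr' rfl (fun i hi _ => ?_) rfl
    have hiB := (hL p hpL).2 hi
    show (Fin.cons s (fun j => w (e.symm j)) : Fin ((B.erase i0).card + 1) → ℝ) (ρ i) = w i
    by_cases hi0 : i = i0
    · rw [hi0, hρ0, Fin.cons_zero, hw]
    · have hi' : i ∈ B.erase i0 := Finset.mem_erase.2 ⟨hi0, hiB⟩
      have hρi : ρ i = (e ⟨i, hi'⟩).succ := dif_pos hi'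
      rw [hρi, Fin.cons_succ, Equiv.symm_apply_apply]
  · rintro ⟨z, hz⟩
    refine ⟨(Fin.cons s z : Fin ((B.erase i0).card + 1) → ℝ) ∘ ρ, ?_,
      (ListRep.both ρ L _).2.1 hz⟩
    rw [Function.comp_apply, hρ0, Fin.cons_zero]

end Pool.Agent.J6H79.SM
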