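import Pool.Agent.J6H79.SM.Stm

/-!
# The meaning of the verifier (helper43)
-/

set_option autoImplicit false
set_option maxHeartbeats 4000000

namespace Pool.Agent.J6H79.SM.Mean

open Pool.Agent.NPC Pool.Agent.NPC.ER Pool.Agent.J6H79.FR Pool.Agent.NPC.ER.J6H79
open Pool.Agent.J6H79.SM

theorem WW_pos (b : ℕ) {q : ℕ} (φ : Fm) (hq : 1 ≤ q) : 1 ≤ WW b q φ := by
  unfold WW W0
  exact Nat.one_le_pow _ _ (by positivity)

theorem abs_div_le {A B W b : ℕ} (hW : 1 ≤ W) :
    |((A : ℝ) - B) / W| ≤ b ↔ A ≤ B + b * W ∧ B ≤ A + b * W := by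
  have hW' : (0 : ℝ) < W := by exact_mod_cast hW
  rw [abs_div, abs_of_pos hW', div_le_iff₀ hW', abs_le]
  constructor
  · rintro ⟨h1, h2⟩
    constructor
    · have : (A : ℝ) ≤ B + b * W := by linarith
      exact_mod_cast this
    · have : (B : ℝ) ≤ A + b * W := by linarith
      exact_mod_cast this
  · rintro ⟨h1, h2⟩
    have h1' : (A : ℝ) ≤ B + b * W := by exact_mod_cast h1
    have h2' : (B : ℝ) ≤ A + b * W := by exact_mod_cast h2
    constructor <;> linarith

theorem div_eq_zero' {A B W : ℕ} (hW : 1 ≤ W) : ((A : ℝ) - B) / W = 0 ↔ A = B := by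
  have hW' : (W : ℝ) ≠ 0 := by
    have : (0 : ℝ) < W := by exact_mod_cast hW
    exact this.ne'
  rw [div_eq_zero_iff, or_iff_left hW', sub_eq_zero, Nat.cast_inj]

theorem div_eq_one' {A B W : ℕ} (hW : 1 ≤ W) : ((A : ℝ) - B) / W = 1 ↔ A = B + W := by
  have hW' : (W : ℝ) ≠ 0 := by
    have : (0 : ℝ) < W := by exact_mod_cast hW
    exact this.ne'
  rw [div_eq_one_iff_eq hW', sub_eq_iff_eq_add']
  exact_mod_cast Iff.rfl

/-- the test of an entry for a variable -/
theorem chD_iff {K b M W : ℕ} (hW : 1 ≤ W) (e : ℕ × ℕ × ℕ) : chD K b M W e = true ↔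
    (e.1 < M → (e.1 < K → |((e.2.1 : ℝ) - e.2.2) / W| ≤ b) ∧
      (K ≤ e.1 → ((e.2.1 : ℝ) - e.2.2) / W = 0 ∨ ((e.2.1 : ℝ) - e.2.2) / W = 1)) := by
  rw [abs_div_le hW, div_eq_zero' hW, div_eq_one' hW]
  unfold chD
  rw [Bool.or_eq_true, decide_eq_true_eq]
  by_cases hM : M ≤ e.1
  · exact ⟨fun _ h => absurd h (not_lt.2 hM), fun _ => Or.inl hM⟩
  · rw [or_iff_right hM]
    have hM' : e.1 < M := not_le.1 hM
    by_cases hK : e.1 < K
    · rw [if_pos hK, Bool.and_eq_true, decide_eq_true_eq, decide_eq_true_eq]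
      exact ⟨fun h _ => ⟨fun _ => h, fun h' => absurd hK (not_lt.2 h')⟩, fun h => (h hM').1 hK⟩
    · rw [if_neg hK, Bool.or_eq_true, decide_eq_true_eq, decide_eq_true_eq]
      exact ⟨fun h _ => ⟨fun h' => absurd h' hK, fun _ => h⟩, fun h => (h hM').2 (not_lt.1 hK)⟩

/-- the test of an entry for the perturbation -/
theorem chN_iff {q W M : ℕ} (hq : 1 ≤ q) (hW : 1 ≤ W) (C : List (ℕ × ℕ × ℕ)) (a k : ℕ) :
    chN q W M C (a, k) = true ↔ |cp W C (M + k) - (a : ℝ) / q| ≤ 1 / (4 * q) := by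
  have hW' : (0 : ℝ) < W := by exact_mod_cast hW
  have hq' : (0 : ℝ) < q := by exact_mod_cast hq
  unfold chN cp
  rw [Bool.and_eq_true, decide_eq_true_eq, decide_eq_true_eq]
  obtain ⟨A, hA⟩ : ∃ A : ℕ, A = (lk C (M + k)).1 := ⟨_, rfl⟩
  obtain ⟨B, hB⟩ : ∃ B : ℕ, B = (lk C (M + k)).2 := ⟨_, rfl⟩
  simp only [← hA, ← hB]
  have e1 : ((A : ℝ) - B) / W - (a : ℝ) / q = (4 * (q * A) - 4 * (q * B + a * W)) / (4 * q * W) := by
    field_simp
    ring
  have e2 : (1 : ℝ) / (4 * q) = W / (4 * q * W) := by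
    field_simp
  have hp : (0 : ℝ) < 4 * q * W := by positivity
  rw [e1, e2, abs_div, abs_of_pos hp, div_le_div_iff_of_pos_right hp, abs_le]
  constructor
  · rintro ⟨h1, h2⟩
    have h1' : (4 : ℝ) * (q * A) ≤ 4 * (q * B + a * W) + W := by exact_mod_cast h1
    have h2' : (4 : ℝ) * (q * B + a * W) ≤ 4 * (q * A) + W := by exact_mod_cast h2
    constructor <;> linarith
  · rintro ⟨h1, h2⟩
    have h1' : (4 : ℝ) * (q * A) ≤ 4 * (q * B + a * W) + W := by linarith
    have h2' : (4 : ℝ) * (q * B + a * W) ≤ 4 * (q * A) + W := by linarith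
    exact ⟨by exact_mod_cast h1', by exact_mod_cast h2'⟩

theorem lk_cases (C : List (ℕ × ℕ × ℕ)) (i : ℕ) :
    lk C i = (0, 0) ∨ ∃ e ∈ C, e.1 = i ∧ lk C i = e.2 := by
  unfold lk
  rcases h : C.filter fun e => decide (e.1 = i) with _ | ⟨e, l⟩
  · left; rw [h]; rfl
  · right
    have hm : e ∈ C.filter fun e => decide (e.1 = i) := by rw [h]; exact List.mem_cons_self
    rw [List.mem_filter, decide_eq_true_eq] at hm
    exact ⟨e, hm.1, hm.2, by rw [h]; rfl⟩

theorem out_iff (h1 : S_exact) (h2 : S_tk) (h3 : S_nz) (b : ℕ) {q : ℕ} (hq : 1 ≤ q) (φ : Fm)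
    (C : List (ℕ × ℕ × ℕ)) : (outS b q φ C).1 = 1 ↔ (nz (mb φ) 0 φ).Holds (cp (WW b q φ) C) := by
  obtain ⟨n1, -, n3, n4, n5, -⟩ := h3 φ
  have hW := WW_pos b φ hq
  unfold outS
  rw [h2]
  refine h1 (WW b q φ) (mb φ + φ.toks.length + 1) (EE b q φ) C (nz (mb φ) 0 φ) hW ?_ ?_
  · intro t ht
    have := (n5 (mb φ) 0 n3).1 t ht
    omega
  · rw [n4]
    unfold EE
    have : WW b q φ ^ (φ.toks.length + 2 * na φ + 1) ≤ WW b q φ ^ (3 * φ.toks.length + 2) :=
      Nat.pow_le_pow_right hW (by omega)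
    omega

end Pool.Agent.J6H79.SM.Mean

namespace Pool.Agent.J6H79.SM

open Pool.Agent.NPC Pool.Agent.NPC.ER Pool.Agent.J6H79.FR Pool.Agent.NPC.ER.J6H79
open Mean

theorem mean (h1 : S_exact) (h2 : S_tk) (h3 : S_nz) : S_mean := by
  intro K b φ q r C hq
  have hW := WW_pos b φ hq
  unfold ver Good
  simp only [Bool.and_eq_true, decide_eq_true_eq, List.all_eq_true]
  rw [out_iff h1 h2 h3 b hq φ C]
  refine and_congr (forall₂_congr fun e _ => chD_iff hW e) (and_congr ?_ Iff.rfl)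
  constructor
  · intro h k hk
    have hm : (r[k], k) ∈ r.zipIdx := by
      rw [List.mem_zipIdx_iff_getElem?]
      exact List.getElem?_eq_getElem hk
    have := (chN_iff hq hW C r[k] k).1 (h _ hm)
    unfold nse
    rw [List.getD_eq_getElem _ _ hk]
    exact this
  · rintro h ⟨a, k⟩ hm
    rw [List.mem_zipIdx_iff_getElem?] at hm
    simp only at hm
    obtain ⟨hk, ha⟩ := List.getElem?_eq_some_iff.1 hm
    have := h k hk
    unfold nse at this
    rw [List.getD_eq_getElem _ _ hk, ha] at this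
    exact (chN_iff hq hW C a k).2 this

theorem sound (h : S_nz) : S_sound := by
  intro K b φ q r C hq hr hG
  obtain ⟨hG1, hG2, hG3⟩ := hG
  obtain ⟨-, -, n3, -, n5, -⟩ := h φ
  have hW := WW_pos b φ hq
  refine ⟨fun k => cp (WW b q φ) C (mb φ + k), fun k hk => hG2 k (by omega),
    fun i => if i < mb φ then cp (WW b q φ) C i else 0, ⟨?_, ?_⟩, ?_⟩
  · intro i hi
    simp only
    split_ifs with hM
    · unfold cp
      rcases lk_cases C i with h0 | ⟨e, he, hei, hle⟩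
      · rw [h0]; simp
      · rw [hle]
        exact (hG1 e he (by omega)).1 (by omega)
    · simp
  · intro i hi
    simp only
    split_ifs with hM
    · unfold cp
      rcases lk_cases C i with h0 | ⟨e, he, hei, hle⟩
      · rw [h0]; simp
      · rw [hle]
        exact (hG1 e he (by omega)).2 (by omega)
    · exact Or.inl rfl
  · rw [(n5 (mb φ) 0 n3).2]
    have e : (fun i => if i < mb φ then (fun i => if i < mb φ then cp (WW b q φ) C i else 0) i
        else (fun k => cp (WW b q φ) C (mb φ + k)) (i - mb φ)) = cp (WW b q φ) C := by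
      funext i
      by_cases hi : i < mb φ
      · simp [hi]
      · simp only [hi, if_false]
        congr 1
        omega
    rw [e]
    exact hG3

end Pool.Agent.J6H79.SM
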