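import Pool.Agent.J6H79.SM.Stm

/-!
# The formula with variables for the perturbation, and its symbols

Proof of the statements `S_nz` and `S_tk`: inductions on the formula.
-/

set_option autoImplicit false

namespace Pool.Agent.J6H79.SM.Nz

open Pool.Agent.NPC Pool.Agent.NPC.ER

theorem na_pos (φ : Fm) : 1 ≤ na φ := by
  induction φ with
  | eq s t => simp [na]
  | lt s t => simp [na]
  | le s t => simp [na]
  | not φ ih => simpa [na] using ih
  | and φ ψ ih1 ih2 => simp only [na]; omega
  | or φ ψ ih1 ih2 => simp only [na]; omega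

theorem na_le (φ : Fm) : na φ ≤ φ.toks.length := by
  induction φ with
  | eq s t => simp only [na, Fm.toks, List.length_append, List.length_singleton]; omega
  | lt s t => simp only [na, Fm.toks, List.length_append, List.length_singleton]; omega
  | le s t => simp only [na, Fm.toks, List.length_append, List.length_singleton]; omega
  | not φ ih => simp only [na, Fm.toks, List.length_append]; omega
  | and φ ψ ih1 ih2 => simp only [na, Fm.toks, List.length_append]; omega
  | or φ ψ ih1 ih2 => simp only [na, Fm.toks, List.length_append]; omega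

theorem le_sum {l : List ℕ} {a : ℕ} (h : a ∈ l) : a ≤ l.sum := by
  induction l with
  | nil => simp at h
  | cons b l ih =>
    simp only [List.sum_cons]
    rcases List.mem_cons.1 h with h | h
    · omega
    · have := ih h; omega

theorem lt_mb (φ : Fm) : ∀ t ∈ φ.toks, t.code.2 < mb φ := by
  intro t ht
  unfold mb
  have := le_sum (List.mem_map_of_mem (f := fun t : Tok => t.code.2) ht)
  omega

theorem len_nz (M : ℕ) (φ : Fm) : ∀ k, (nz M k φ).toks.length = φ.toks.length + 2 * na φ := by
  induction φ with
  | eq s t =>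
    intro k
    simp only [nz, na, Fm.toks, Tm.toks, List.length_append, List.length_cons, List.length_nil]
    omega
  | lt s t =>
    intro k
    simp only [nz, na, Fm.toks, Tm.toks, List.length_append, List.length_cons, List.length_nil]
    omega
  | le s t =>
    intro k
    simp only [nz, na, Fm.toks, Tm.toks, List.length_append, List.length_cons, List.length_nil]
    omega
  | not φ ih =>
    intro k
    simp only [nz, na, Fm.toks, List.length_append, ih k]
    omega
  | and φ ψ ih1 ih2 =>
    intro k
    simp only [nz, na, Fm.toks, List.length_append, ih1 k, ih2 (k + na φ)]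
    omega
  | or φ ψ ih1 ih2 =>
    intro k
    simp only [nz, na, Fm.toks, List.length_append, ih1 k, ih2 (k + na φ)]
    omega

theorem ev (M : ℕ) (x x' : ℕ → ℝ) (hx : ∀ i < M, x i = x' i) (t : Tm)
    (h : ∀ a ∈ t.toks, a.code.2 < M) : t.eval x = t.eval x' := by
  induction t with
  | var i =>
    have := h (Tok.var i) (by simp [Tm.toks])
    exact hx i this
  | zero => rfl
  | one => rfl
  | add s t ihs iht =>
    simp only [Tm.eval]
    rw [ihs fun a ha => h a (by simp [Tm.toks, ha]), iht fun a ha => h a (by simp [Tm.toks, ha])]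
  | neg t ih =>
    simp only [Tm.eval]
    rw [ih fun a ha => h a (by simp [Tm.toks, ha])]
  | mul s t ihs iht =>
    simp only [Tm.eval]
    rw [ihs fun a ha => h a (by simp [Tm.toks, ha]), iht fun a ha => h a (by simp [Tm.toks, ha])]

theorem lt_atom {M k : ℕ} {s t : Tm} {c : Tok} (hc : c.code.2 = 0)
    (h : ∀ a ∈ s.toks ++ t.toks ++ [c], a.code.2 < M) :
    ∀ a ∈ s.toks ++ (t.toks ++ [Tok.var (M + k)] ++ [Tok.add]) ++ [c], a.code.2 < M + k + 1 := by
  intro a ha
  simp only [List.mem_append, List.mem_singleton] at ha h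
  rcases ha with (ha | (ha | ha) | ha) | ha
  · have := h a (Or.inl (Or.inl ha)); omega
  · have := h a (Or.inl (Or.inr ha)); omega
  · subst ha; simp only [Tok.code]; omega
  · subst ha; simp only [Tok.code]; omega
  · subst ha; omega

theorem nz_lt (M : ℕ) (φ : Fm) : ∀ k, (∀ t ∈ φ.toks, t.code.2 < M) →
    ∀ t ∈ (nz M k φ).toks, t.code.2 < M + k + na φ := by
  induction φ with
  | eq s t => intro k h; exact lt_atom rfl h
  | lt s t => intro k h; exact lt_atom rfl h
  | le s t => intro k h; exact lt_atom rfl h
  | not φ ih =>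
    intro k h a ha
    simp only [nz, na, Fm.toks, List.mem_append, List.mem_singleton] at h ha ⊢
    have h1 := na_pos φ
    rcases ha with ha | ha
    · exact ih k (fun t ht => h t (Or.inl ht)) a ha
    · subst ha; simp only [Tok.code]; omega
  | and φ ψ ih1 ih2 =>
    intro k h a ha
    simp only [nz, na, Fm.toks, List.mem_append, List.mem_singleton] at h ha ⊢
    have h1 := na_pos φ
    rcases ha with (ha | ha) | ha
    · have := ih1 k (fun t ht => h t (Or.inl (Or.inl ht))) a ha; omega
    · have := ih2 (k + na φ) (fun t ht => h t (Or.inl (Or.inr ht))) a ha; omega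
    · subst ha; simp only [Tok.code]; omega
  | or φ ψ ih1 ih2 =>
    intro k h a ha
    simp only [nz, na, Fm.toks, List.mem_append, List.mem_singleton] at h ha ⊢
    have h1 := na_pos φ
    rcases ha with (ha | ha) | ha
    · have := ih1 k (fun t ht => h t (Or.inl (Or.inl ht))) a ha; omega
    · have := ih2 (k + na φ) (fun t ht => h t (Or.inl (Or.inr ht))) a ha; omega
    · subst ha; simp only [Tok.code]; omega

theorem at_k (M k : ℕ) (x u : ℕ → ℝ) :
    (fun i => if i < M then x i else u (i - M)) (M + k) = u k := by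
  have : ¬ M + k < M := by omega
  simp only [this, if_false]
  congr 1
  omega

theorem nz_holds (M : ℕ) (x u : ℕ → ℝ) (φ : Fm) : ∀ k, (∀ t ∈ φ.toks, t.code.2 < M) →
    (PH x u k φ ↔ (nz M k φ).Holds fun i => if i < M then x i else u (i - M)) := by
  have hx : ∀ i < M, x i = (fun i => if i < M then x i else u (i - M)) i := by
    intro i hi
    simp [hi]
  induction φ with
  | eq s t =>
    intro k h
    simp only [nz, PH, Fm.Holds, Tm.eval]
    rw [ev M x _ hx s fun a ha => h a (by simp [Fm.toks, ha]),
      ev M x _ hx t fun a ha => h a (by simp [Fm.toks, ha]), ← at_k M k x u]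
  | lt s t =>
    intro k h
    simp only [nz, PH, Fm.Holds, Tm.eval]
    rw [ev M x _ hx s fun a ha => h a (by simp [Fm.toks, ha]),
      ev M x _ hx t fun a ha => h a (by simp [Fm.toks, ha]), ← at_k M k x u]
  | le s t =>
    intro k h
    simp only [nz, PH, Fm.Holds, Tm.eval]
    rw [ev M x _ hx s fun a ha => h a (by simp [Fm.toks, ha]),
      ev M x _ hx t fun a ha => h a (by simp [Fm.toks, ha]), ← at_k M k x u]
  | not φ ih =>
    intro k h
    simp only [nz, PH, Fm.Holds]
    rw [ih k fun a ha => h a (by simp [Fm.toks, ha])]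
  | and φ ψ ih1 ih2 =>
    intro k h
    simp only [nz, PH, Fm.Holds]
    rw [ih1 k fun a ha => h a (by simp [Fm.toks, ha]),
      ih2 (k + na φ) fun a ha => h a (by simp [Fm.toks, ha])]
  | or φ ψ ih1 ih2 =>
    intro k h
    simp only [nz, PH, Fm.Holds]
    rw [ih1 k fun a ha => h a (by simp [Fm.toks, ha]),
      ih2 (k + na φ) fun a ha => h a (by simp [Fm.toks, ha])]

theorem ph_congr (M : ℕ) (x x' u u' : ℕ → ℝ) (hx : ∀ i < M, x i = x' i) (φ : Fm) :
    ∀ k, (∀ t ∈ φ.toks, t.code.2 < M) → (∀ j, k ≤ j → j < k + na φ → u j = u' j) →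
    (PH x u k φ ↔ PH x' u' k φ) := by
  induction φ with
  | eq s t =>
    intro k h hu
    simp only [PH]
    rw [ev M x _ hx s fun a ha => h a (by simp [Fm.toks, ha]),
      ev M x _ hx t fun a ha => h a (by simp [Fm.toks, ha]), hu k le_rfl (by simp [na])]
  | lt s t =>
    intro k h hu
    simp only [PH]
    rw [ev M x _ hx s fun a ha => h a (by simp [Fm.toks, ha]),
      ev M x _ hx t fun a ha => h a (by simp [Fm.toks, ha]), hu k le_rfl (by simp [na])]
  | le s t =>
    intro k h hu
    simp only [PH]
    rw [ev M x _ hx s fun a ha => h a (by simp [Fm.toks, ha]),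
      ev M x _ hx t fun a ha => h a (by simp [Fm.toks, ha]), hu k le_rfl (by simp [na])]
  | not φ ih =>
    intro k h hu
    simp only [PH]
    rw [ih k (fun a ha => h a (by simp [Fm.toks, ha])) hu]
  | and φ ψ ih1 ih2 =>
    intro k h hu
    simp only [na] at hu
    simp only [PH]
    rw [ih1 k (fun a ha => h a (by simp [Fm.toks, ha])) fun j h1 h2 => hu j h1 (by omega),
      ih2 (k + na φ) (fun a ha => h a (by simp [Fm.toks, ha]))
        fun j h1 h2 => hu j (by omega) (by omega)]
  | or φ ψ ih1 ih2 =>
    intro k h hu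
    simp only [na] at hu
    simp only [PH]
    rw [ih1 k (fun a ha => h a (by simp [Fm.toks, ha])) fun j h1 h2 => hu j h1 (by omega),
      ih2 (k + na φ) (fun a ha => h a (by simp [Fm.toks, ha]))
        fun j h1 h2 => hu j (by omega) (by omega)]

/-! ### The symbols -/

/-- the symbols of `nz M k φ`, recursively -/
def tr (M : ℕ) : ℕ → List Tok → List Tok
  | _, [] => []
  | k, t :: l => if cmp t then Tok.var (M + k) :: Tok.add :: t :: tr M (k + 1) l else t :: tr M k l

theorem cnt_take (n : ℕ) (l : List Tok) : ∀ k,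
    (l.zipIdx k).countP (fun p' => cmp p'.1 && decide (p'.2 < n)) = (l.take (n - k)).countP cmp := by
  induction l with
  | nil => intro k; simp
  | cons t l ih =>
    intro k
    rw [List.zipIdx_cons, List.countP_cons, ih (k + 1)]
    by_cases hk : k < n
    · obtain ⟨m, hm⟩ : ∃ m, n - k = m + 1 := ⟨n - k - 1, by omega⟩
      have hm' : n - (k + 1) = m := by omega
      rw [hm, hm', List.take_succ_cons, List.countP_cons]
      simp [hk]
    · have h0 : n - k = 0 := by omega
      have h1 : n - (k + 1) = 0 := by omega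
      rw [h0, h1]
      simp [hk]

theorem tk_eq (M : ℕ) (l2 : List Tok) : ∀ l1 : List Tok,
    ((l2.zipIdx l1.length).flatMap fun p =>
      if cmp p.1 then [Tok.var (M + ((l1 ++ l2).zipIdx.filter
        fun p' => cmp p'.1 && decide (p'.2 < p.2)).length), Tok.add, p.1] else [p.1])
      = tr M (l1.countP cmp) l2 := by
  induction l2 with
  | nil => intro l1; simp [tr]
  | cons t l ih =>
    intro l1
    have h1 := ih (l1 ++ [t])
    rw [List.length_append, List.length_singleton, List.append_assoc, List.singleton_append,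
      List.countP_append, List.countP_singleton] at h1
    rw [List.zipIdx_cons, List.flatMap_cons, h1]
    have h2 : ((l1 ++ t :: l).zipIdx.filter
        fun p' => cmp p'.1 && decide (p'.2 < l1.length)).length = l1.countP cmp := by
      rw [← List.countP_eq_length_filter, cnt_take]
      simp
    cases hc : cmp t
    · simp [tr, hc]
    · simp [tr, hc, h2]

theorem tk_tr (M : ℕ) (l : List Tok) : tk M l = tr M 0 l := by
  have := tk_eq M l []
  simpa [tk] using this

theorem tr_append (M : ℕ) (l1 l2 : List Tok) : ∀ k,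
    tr M k (l1 ++ l2) = tr M k l1 ++ tr M (k + l1.countP cmp) l2 := by
  induction l1 with
  | nil => intro k; simp [tr]
  | cons t l ih =>
    intro k
    cases hc : cmp t
    · simp [tr, hc, ih k]
    · simp only [List.cons_append, tr, hc, if_true, ih (k + 1), List.countP_cons]
      congr 5
      omega

theorem tm_cmp (t : Tm) : ∀ a ∈ t.toks, cmp a = false := by
  induction t with
  | var i => simp [Tm.toks, cmp, Tok.code]
  | zero => simp [Tm.toks, cmp, Tok.code]
  | one => simp [Tm.toks, cmp, Tok.code]
  | add s t ihs iht =>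
    intro a ha
    simp only [Tm.toks, List.mem_append, List.mem_singleton] at ha
    rcases ha with (ha | ha) | ha
    · exact ihs a ha
    · exact iht a ha
    · subst ha; rfl
  | neg t ih =>
    intro a ha
    simp only [Tm.toks, List.mem_append, List.mem_singleton] at ha
    rcases ha with ha | ha
    · exact ih a ha
    · subst ha; rfl
  | mul s t ihs iht =>
    intro a ha
    simp only [Tm.toks, List.mem_append, List.mem_singleton] at ha
    rcases ha with (ha | ha) | ha
    · exact ihs a ha
    · exact iht a ha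
    · subst ha; rfl

theorem cnt_zero {l : List Tok} (h : ∀ a ∈ l, cmp a = false) : l.countP cmp = 0 := by
  rw [List.countP_eq_zero]
  intro a ha
  simp [h a ha]

theorem tr_zero (M : ℕ) {l : List Tok} (h : ∀ a ∈ l, cmp a = false) : ∀ k, tr M k l = l := by
  induction l with
  | nil => intro k; rfl
  | cons t l ih =>
    intro k
    rw [tr, h t (by simp)]
    simp [ih fun a ha => h a (by simp [ha])]

theorem cnt_fm (φ : Fm) : φ.toks.countP cmp = na φ := by
  induction φ with
  | eq s t =>
    simp only [Fm.toks, na, List.countP_append, cnt_zero (tm_cmp s), cnt_zero (tm_cmp t)]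
    rfl
  | lt s t =>
    simp only [Fm.toks, na, List.countP_append, cnt_zero (tm_cmp s), cnt_zero (tm_cmp t)]
    rfl
  | le s t =>
    simp only [Fm.toks, na, List.countP_append, cnt_zero (tm_cmp s), cnt_zero (tm_cmp t)]
    rfl
  | not φ ih =>
    simp only [Fm.toks, na, List.countP_append, ih]
    rfl
  | and φ ψ ih1 ih2 =>
    simp only [Fm.toks, na, List.countP_append, ih1, ih2]
    rfl
  | or φ ψ ih1 ih2 =>
    simp only [Fm.toks, na, List.countP_append, ih1, ih2]
    rfl

theorem tr_fm (M : ℕ) (φ : Fm) : ∀ k, tr M k φ.toks = (nz M k φ).toks := by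
  induction φ with
  | eq s t =>
    intro k
    simp only [Fm.toks, nz, Tm.toks, tr_append, tr_zero M (tm_cmp s), tr_zero M (tm_cmp t),
      List.countP_append, cnt_zero (tm_cmp s), cnt_zero (tm_cmp t)]
    simp [tr, cmp, Tok.code]
  | lt s t =>
    intro k
    simp only [Fm.toks, nz, Tm.toks, tr_append, tr_zero M (tm_cmp s), tr_zero M (tm_cmp t),
      List.countP_append, cnt_zero (tm_cmp s), cnt_zero (tm_cmp t)]
    simp [tr, cmp, Tok.code]
  | le s t =>
    intro k
    simp only [Fm.toks, nz, Tm.toks, tr_append, tr_zero M (tm_cmp s), tr_zero M (tm_cmp t),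
      List.countP_append, cnt_zero (tm_cmp s), cnt_zero (tm_cmp t)]
    simp [tr, cmp, Tok.code]
  | not φ ih =>
    intro k
    simp only [Fm.toks, nz, tr_append, ih k]
    simp [tr, cmp, Tok.code]
  | and φ ψ ih1 ih2 =>
    intro k
    simp only [Fm.toks, nz, tr_append, ih1 k, ih2, List.countP_append, cnt_fm]
    simp [tr, cmp, Tok.code]
  | or φ ψ ih1 ih2 =>
    intro k
    simp only [Fm.toks, nz, tr_append, ih1 k, ih2, List.countP_append, cnt_fm]
    simp [tr, cmp, Tok.code]

end Pool.Agent.J6H79.SM.Nz

namespace Pool.Agent.J6H79.SM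

theorem nz_ok : S_nz := fun φ =>
  ⟨Nz.na_le φ, Nz.na_pos φ, Nz.lt_mb φ, fun M k => Nz.len_nz M φ k,
    fun M k h => ⟨Nz.nz_lt M φ k h, fun x u => Nz.nz_holds M x u φ k h⟩,
    fun k x x' u u' hx hu => Nz.ph_congr (mb φ) x x' u u' hx φ k (Nz.lt_mb φ) hu⟩

theorem tk_ok : S_tk := fun M φ => by rw [Nz.tk_tr, Nz.tr_fm]

end Pool.Agent.J6H79.SM
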