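import Pool.Agent.J6H79.SM.Stm

/-!
# Representation of the sets of perturbations by quadratic equations
-/

set_option autoImplicit false

namespace Pool.Agent.J6H79.SM.RepM

open Pool.Agent.NPC Pool.Agent.NPC.ER Pool.Agent.J6H79.FR Pool.Agent.NPC.ER.J6H79 MvPolynomial

/-! ### Truth depends only on the variables that occur -/

theorem eval_congr {x x' : ℕ → ℝ} (t : Tm) (h : ∀ a ∈ t.toks, x a.code.2 = x' a.code.2) :
    t.eval x = t.eval x' := by
  induction t with
  | var i => exact h (Tok.var i) (by simp [Tm.toks])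
  | zero => rfl
  | one => rfl
  | add s t ihs iht =>
    simp only [Tm.toks, List.mem_append] at h
    simp only [Tm.eval]
    rw [ihs fun a ha => h a (Or.inl (Or.inl ha)), iht fun a ha => h a (Or.inl (Or.inr ha))]
  | neg t ih =>
    simp only [Tm.toks, List.mem_append] at h
    simp only [Tm.eval]
    rw [ih fun a ha => h a (Or.inl ha)]
  | mul s t ihs iht =>
    simp only [Tm.toks, List.mem_append] at h
    simp only [Tm.eval]
    rw [ihs fun a ha => h a (Or.inl (Or.inl ha)), iht fun a ha => h a (Or.inl (Or.inr ha))]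

theorem PH_congr {x x' u u' : ℕ → ℝ} (φ : Fm) : ∀ k : ℕ,
    (∀ a ∈ φ.toks, x a.code.2 = x' a.code.2) → (∀ j, k ≤ j → j < k + na φ → u j = u' j) →
    (PH x u k φ ↔ PH x' u' k φ) := by
  induction φ with
  | eq s t =>
    intro k h hu
    simp only [Fm.toks, List.mem_append] at h
    simp only [PH]
    rw [eval_congr s fun a ha => h a (Or.inl (Or.inl ha)),
      eval_congr t fun a ha => h a (Or.inl (Or.inr ha)), hu k le_rfl (by simp [na])]
  | lt s t =>
    intro k h hu
    simp only [Fm.toks, List.mem_append] at h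
    simp only [PH]
    rw [eval_congr s fun a ha => h a (Or.inl (Or.inl ha)),
      eval_congr t fun a ha => h a (Or.inl (Or.inr ha)), hu k le_rfl (by simp [na])]
  | le s t =>
    intro k h hu
    simp only [Fm.toks, List.mem_append] at h
    simp only [PH]
    rw [eval_congr s fun a ha => h a (Or.inl (Or.inl ha)),
      eval_congr t fun a ha => h a (Or.inl (Or.inr ha)), hu k le_rfl (by simp [na])]
  | not φ ih =>
    intro k h hu
    simp only [Fm.toks, List.mem_append] at h
    simp only [PH]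
    exact not_congr (ih k (fun a ha => h a (Or.inl ha)) hu)
  | and φ ψ ih1 ih2 =>
    intro k h hu
    simp only [Fm.toks, List.mem_append] at h
    simp only [na] at hu
    simp only [PH]
    exact and_congr
      (ih1 k (fun a ha => h a (Or.inl (Or.inl ha))) fun j h1 h2 => hu j h1 (by omega))
      (ih2 _ (fun a ha => h a (Or.inl (Or.inr ha))) fun j h1 h2 => hu j (by omega) (by omega))
  | or φ ψ ih1 ih2 =>
    intro k h hu
    simp only [Fm.toks, List.mem_append] at h
    simp only [na] at hu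
    simp only [PH]
    exact or_congr
      (ih1 k (fun a ha => h a (Or.inl (Or.inl ha))) fun j h1 h2 => hu j h1 (by omega))
      (ih2 _ (fun a ha => h a (Or.inl (Or.inr ha))) fun j h1 h2 => hu j (by omega) (by omega))

/-! ### Polynomials -/

/-- polynomials in the variables of the system (left) and the slack variables (right) -/
abbrev Pl : Type := MvPolynomial (ℕ ⊕ ℕ) ℝ

/-- degree at most two and at most three variables -/
def Ok (p : Pl) : Prop := p.totalDegree ≤ 2 ∧ p.vars.card ≤ 3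

theorem dX (i : ℕ ⊕ ℕ) : (X i : Pl).totalDegree ≤ 1 := (totalDegree_X i).le

theorem dC (r : ℝ) (m : ℕ) : (C r : Pl).totalDegree ≤ m := by
  rw [totalDegree_C]
  exact Nat.zero_le _

theorem dadd {p q : Pl} {m : ℕ} (hp : p.totalDegree ≤ m) (hq : q.totalDegree ≤ m) :
    (p + q).totalDegree ≤ m := (totalDegree_add p q).trans (max_le hp hq)

theorem dsub {p q : Pl} {m : ℕ} (hp : p.totalDegree ≤ m) (hq : q.totalDegree ≤ m) :
    (p - q).totalDegree ≤ m := (totalDegree_sub p q).trans (max_le hp hq)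

theorem dmul {p q : Pl} (hp : p.totalDegree ≤ 1) (hq : q.totalDegree ≤ 1) :
    (p * q).totalDegree ≤ 2 := (totalDegree_mul p q).trans (by omega)

theorem dX2 (i : ℕ ⊕ ℕ) : (X i : Pl).totalDegree ≤ 2 := (dX i).trans (by norm_num)

theorem ok_of {p : Pl} (a b c : ℕ ⊕ ℕ) (hd : p.totalDegree ≤ 2)
    (hv : p ∈ supported ℝ ((({a, b, c} : Finset (ℕ ⊕ ℕ)) : Set (ℕ ⊕ ℕ)))) : Ok p := by
  refine ⟨hd, ?_⟩
  rw [mem_supported, Finset.coe_subset] at hv
  exact (Finset.card_le_card hv).trans Finset.card_le_three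

theorem sX {s : Finset (ℕ ⊕ ℕ)} {i : ℕ ⊕ ℕ} (h : i ∈ s) :
    (X i : Pl) ∈ supported ℝ (s : Set (ℕ ⊕ ℕ)) := X_mem_supported.2 h

theorem sC {s : Finset (ℕ ⊕ ℕ)} (r : ℝ) : (C r : Pl) ∈ supported ℝ (s : Set (ℕ ⊕ ℕ)) :=
  Subalgebra.algebraMap_mem _ r

/-- the polynomial of an elementary constraint -/
noncomputable def conP : Con → Pl
  | .one i => X (.inl i) - C 1
  | .add i j k => X (.inl i) + X (.inl j) - X (.inl k)
  | .mul i j k => X (.inl i) * X (.inl j) - X (.inl k)

theorem conP_ok (c : Con) : Ok (conP c) := by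
  cases c with
  | one i =>
    exact ok_of (.inl i) (.inl i) (.inl i) (dsub (dX2 _) (dC _ _))
      (Subalgebra.sub_mem _ (sX (by simp)) (sC _))
  | add i j k =>
    exact ok_of (.inl i) (.inl j) (.inl k) (dsub (dadd (dX2 _) (dX2 _)) (dX2 _))
      (Subalgebra.sub_mem _ (Subalgebra.add_mem _ (sX (by simp)) (sX (by simp))) (sX (by simp)))
  | mul i j k =>
    exact ok_of (.inl i) (.inl j) (.inl k) (dsub (dmul (dX _) (dX _)) (dX2 _))
      (Subalgebra.sub_mem _ (Subalgebra.mul_mem _ (sX (by simp)) (sX (by simp))) (sX (by simp)))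

theorem conP_eval (w : ℕ ⊕ ℕ → ℝ) (c : Con) :
    eval w (conP c) = 0 ↔ c.Holds fun i => w (.inl i) := by
  cases c <;> simp [conP, Con.Holds, sub_eq_zero]

/-- the condition for a variable of the formula -/
noncomputable def domP (K b i : ℕ) : Pl :=
  if i < K then X (.inl (2 * i)) * X (.inl (2 * i)) + X (.inr i) * X (.inr i) - C ((b : ℝ) ^ 2)
  else X (.inl (2 * i)) * X (.inl (2 * i)) - X (.inl (2 * i))

theorem domP_ok (K b i : ℕ) : Ok (domP K b i) := by
  unfold domP
  split_ifs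
  · exact ok_of (.inl (2 * i)) (.inr i) (.inr i)
      (dsub (dadd (dmul (dX _) (dX _)) (dmul (dX _) (dX _))) (dC _ _))
      (Subalgebra.sub_mem _ (Subalgebra.add_mem _ (Subalgebra.mul_mem _ (sX (by simp))
        (sX (by simp))) (Subalgebra.mul_mem _ (sX (by simp)) (sX (by simp)))) (sC _))
  · exact ok_of (.inl (2 * i)) (.inr i) (.inr i) (dsub (dmul (dX _) (dX _)) (dX2 _))
      (Subalgebra.sub_mem _ (Subalgebra.mul_mem _ (sX (by simp)) (sX (by simp))) (sX (by simp)))

/-- the condition for a perturbation -/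
noncomputable def nseP (M j : ℕ) (v : ℕ → ℝ) (η : ℝ) (k : ℕ) : Pl :=
  if k < j then (X (.inl (2 * (M + k))) - C (v k)) * (X (.inl (2 * (M + k))) - C (v k)) +
    X (.inr (M + k)) * X (.inr (M + k)) - C (η ^ 2)
  else if k = j then C 0 else X (.inl (2 * (M + k))) - C (v k)

theorem nseP_ok (M j : ℕ) (v : ℕ → ℝ) (η : ℝ) (k : ℕ) : Ok (nseP M j v η k) := by
  unfold nseP
  split_ifs
  · have h1 := dsub (dX (.inl (2 * (M + k)))) (dC (v k) 1)
    have h2 : (X (.inl (2 * (M + k))) - C (v k) : Pl) ∈ supported ℝ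
        ((({.inl (2 * (M + k)), .inr (M + k), .inr (M + k)} : Finset (ℕ ⊕ ℕ)) : Set (ℕ ⊕ ℕ))) :=
      Subalgebra.sub_mem _ (sX (by simp)) (sC _)
    exact ok_of (.inl (2 * (M + k))) (.inr (M + k)) (.inr (M + k))
      (dsub (dadd (dmul h1 h1) (dmul (dX _) (dX _))) (dC _ _))
      (Subalgebra.sub_mem _ (Subalgebra.add_mem _ (Subalgebra.mul_mem _ h2 h2)
        (Subalgebra.mul_mem _ (sX (by simp)) (sX (by simp)))) (sC _))
  · exact ok_of (.inr k) (.inr k) (.inr k) (dC _ _) (sC _)
  · exact ok_of (.inl (2 * (M + k))) (.inr k) (.inr k) (dsub (dX2 _) (dC _ _))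
      (Subalgebra.sub_mem _ (sX (by simp)) (sC _))

/-- a common set of variables -/
theorem vars_of : ∀ L : List Pl, (∀ p ∈ L, Ok p) → ∃ B : Finset (ℕ ⊕ ℕ),
    (∀ p ∈ L, p.totalDegree ≤ 2 ∧ p.vars ⊆ B) ∧ B.card ≤ 3 * L.length
  | [], _ => ⟨∅, by simp, by simp⟩
  | p :: L, h => by
    classical
    obtain ⟨B, hB, hc⟩ := vars_of L fun q hq => h q (List.mem_cons_of_mem _ hq)
    have hp := h p List.mem_cons_self
    refine ⟨p.vars ∪ B, fun q hq => ?_, ?_⟩
    · rcases List.mem_cons.1 hq with rfl | hq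
      · exact ⟨hp.1, Finset.subset_union_left⟩
      · exact ⟨(hB q hq).1, (hB q hq).2.trans Finset.subset_union_right⟩
    · have h1 := Finset.card_union_le p.vars B
      have h2 := hp.2
      rw [List.length_cons]
      omega

/-- the list of the equations -/
noncomputable def eqs (K b : ℕ) (φ : Fm) (v : ℕ → ℝ) (η : ℝ) (j : ℕ) : List Pl :=
  (sysOf (nz (mb φ) 0 φ)).map conP ++ (φ.toks.map fun t => domP K b t.code.2) ++
    (List.range (na φ)).map (nseP (mb φ) j v η)

theorem eqs_ok (K b : ℕ) (φ : Fm) (v : ℕ → ℝ) (η : ℝ) (j : ℕ) :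
    ∀ p ∈ eqs K b φ v η j, Ok p := by
  intro p hp
  simp only [eqs, List.mem_append, List.mem_map] at hp
  rcases hp with (⟨c, _, rfl⟩ | ⟨t, _, rfl⟩) | ⟨k, _, rfl⟩
  · exact conP_ok c
  · exact domP_ok K b _
  · exact nseP_ok _ _ _ _ _

theorem eqs_iff (K b : ℕ) (φ : Fm) (v : ℕ → ℝ) (η : ℝ) (j : ℕ) (w : ℕ ⊕ ℕ → ℝ) :
    (∀ p ∈ eqs K b φ v η j, eval w p = 0) ↔
      SysHolds (fun i => w (.inl i)) (sysOf (nz (mb φ) 0 φ)) ∧
      (∀ t ∈ φ.toks, eval w (domP K b t.code.2) = 0) ∧
      ∀ k < na φ, eval w (nseP (mb φ) j v η k) = 0 := by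
  simp only [eqs, List.mem_append, List.mem_map, List.mem_range]
  constructor
  · intro h
    refine ⟨fun c hc => ?_, fun t ht => h _ (Or.inl (Or.inr ⟨t, ht, rfl⟩)),
      fun k hk => h _ (Or.inr ⟨k, hk, rfl⟩)⟩
    exact (conP_eval w c).1 (h _ (Or.inl (Or.inl ⟨c, hc, rfl⟩)))
  · rintro ⟨h1, h2, h3⟩ p ((⟨c, hc, rfl⟩ | ⟨t, ht, rfl⟩) | ⟨k, hk, rfl⟩)
    · exact (conP_eval w c).2 (h1 c hc)
    · exact h2 t ht
    · exact h3 k hk

end Pool.Agent.J6H79.SM.RepM

namespace Pool.Agent.J6H79.SM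

open Pool.Agent.NPC Pool.Agent.NPC.ER Pool.Agent.J6H79.FR Pool.Agent.NPC.ER.J6H79 MvPolynomial RepM

theorem rep (h1 : S_list) (h2 : S_trans) (h3 : S_nz) : S_rep := by
  refine ⟨72, fun K b φ v η j hη hj => ?_⟩
  obtain ⟨g1, g2, g3, g4, g5, -⟩ := h3 φ
  obtain ⟨B, hB, hBc⟩ := vars_of _ (eqs_ok K b φ v η j)
  have hlen : (eqs K b φ v η j).length ≤ 24 * φ.toks.length := by
    have e1 := (h2 (nz (mb φ) 0 φ)).1
    rw [g4] at e1
    simp only [eqs, List.length_append, List.length_map, List.length_range]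
    omega
  have key := h1 (72 * φ.toks.length) (eqs K b φ v η j) B (.inl (2 * (mb φ + j))) hB (by omega)
  have hnz := (g5 (mb φ) 0 g3).2
  convert key using 1
  ext s
  simp only [Set.mem_setOf_eq, eqs_iff]
  constructor
  · rintro ⟨y, hy1, rfl, hy2, x, hx, hP⟩
    obtain ⟨w0, hw0, hw⟩ := ((h2 (nz (mb φ) 0 φ)).2 _).1 ((hnz x y).1 hP)
    have hwM : ∀ i, i < mb φ → w0 (2 * i) = x i := fun i hi => by rw [hw0, if_pos hi]
    have hwy : ∀ k, w0 (2 * (mb φ + k)) = y k := fun k => by
      rw [hw0, if_neg (by omega), Nat.add_sub_cancel_left]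
    refine ⟨Sum.elim w0 fun i => if i < mb φ then √((b : ℝ) ^ 2 - x i ^ 2) else
      √(η ^ 2 - (y (i - mb φ) - v (i - mb φ)) ^ 2), hwy j, hw, fun t ht => ?_, fun k hk => ?_⟩
    · have ht' := g3 t ht
      unfold domP
      split_ifs with hK
      · have h5 := hx.1 _ hK
        have h6 : x t.code.2 ^ 2 ≤ (b : ℝ) ^ 2 := sq_le_sq' (abs_le.1 h5).1 (abs_le.1 h5).2
        simp only [map_sub, map_add, map_mul, eval_X, eval_C, Sum.elim_inl, Sum.elim_inr,
          if_pos ht', hwM _ ht', Real.mul_self_sqrt (sub_nonneg.2 h6)]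
        ring
      · simp only [map_sub, map_mul, eval_X, Sum.elim_inl, hwM _ ht']
        rcases hx.2 _ (not_lt.1 hK) with h5 | h5 <;> rw [h5] <;> norm_num
    · unfold nseP
      split_ifs with hk1 hk2
      · have h5 := hy1 k hk1
        have h6 : (y k - v k) ^ 2 ≤ η ^ 2 := sq_le_sq' (abs_le.1 h5).1 (abs_le.1 h5).2
        have h7 : ¬ (mb φ + k < mb φ) := by omega
        simp only [map_sub, map_add, map_mul, eval_X, eval_C, Sum.elim_inl, Sum.elim_inr,
          if_neg h7, hwy, Nat.add_sub_cancel_left, Real.mul_self_sqrt (sub_nonneg.2 h6)]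
        ring
      · rw [eval_C]
      · simp only [map_sub, eval_X, eval_C, Sum.elim_inl, hwy]
        rw [hy2 k (by omega), sub_self]
  · rintro ⟨w, rfl, hw, hd, hn⟩
    classical
    have h5 : (nz (mb φ) 0 φ).Holds fun i => w (.inl (2 * i)) :=
      ((h2 (nz (mb φ) 0 φ)).2 _).2 ⟨fun i => w (.inl i), fun i => rfl, hw⟩
    have h6 : PH (fun i => w (.inl (2 * i))) (fun k => w (.inl (2 * (mb φ + k)))) 0 φ := by
      rw [hnz]
      convert h5 using 1
      funext i
      split_ifs with hi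
      · rfl
      · rw [Nat.add_sub_cancel' (not_lt.1 hi)]
    refine ⟨fun k => if k ≤ j then w (.inl (2 * (mb φ + k))) else v k, fun k hk => ?_, ?_,
      fun k hk => if_neg (by omega),
      fun i => if ∃ t ∈ φ.toks, t.code.2 = i then w (.inl (2 * i)) else 0, ⟨fun i hi => ?_,
        fun i hi => ?_⟩, ?_⟩
    · have h7 := hn k (by omega)
      unfold nseP at h7
      rw [if_pos hk] at h7
      simp only [map_sub, map_add, map_mul, eval_X, eval_C] at h7
      simp only [if_pos hk.le]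
      refine abs_le_of_sq_le_sq ?_ hη
      nlinarith [mul_self_nonneg (w (.inr (mb φ + k)))]
    · exact if_pos le_rfl
    · show |if ∃ t ∈ φ.toks, t.code.2 = i then w (.inl (2 * i)) else 0| ≤ (b : ℝ)
      split_ifs with h
      · obtain ⟨t, ht, rfl⟩ := h
        have h7 := hd t ht
        unfold domP at h7
        rw [if_pos hi] at h7
        simp only [map_sub, map_add, map_mul, eval_X, eval_C] at h7
        refine abs_le_of_sq_le_sq ?_ (Nat.cast_nonneg b)
        nlinarith [mul_self_nonneg (w (.inr t.code.2))]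
      · rw [abs_zero]
        exact Nat.cast_nonneg b
    · show (if ∃ t ∈ φ.toks, t.code.2 = i then w (.inl (2 * i)) else 0) = 0 ∨
        (if ∃ t ∈ φ.toks, t.code.2 = i then w (.inl (2 * i)) else 0) = 1
      split_ifs with h
      · obtain ⟨t, ht, rfl⟩ := h
        have h7 := hd t ht
        unfold domP at h7
        rw [if_neg (not_lt.2 hi)] at h7
        simp only [map_sub, map_mul, eval_X] at h7
        have h8 : w (.inl (2 * t.code.2)) * (w (.inl (2 * t.code.2)) - 1) = 0 := by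
          linear_combination h7
        rcases mul_eq_zero.1 h8 with h9 | h9
        · exact Or.inl h9
        · exact Or.inr (sub_eq_zero.1 h9)
      · exact Or.inl rfl
    · refine (PH_congr φ 0 (fun a ha => ?_) fun k _ hk => ?_).2 h6
      · exact if_pos ⟨a, ha, rfl⟩
      · show (if k ≤ j then w (.inl (2 * (mb φ + k))) else v k) = _
        split_ifs with hkj
        · rfl
        · have h7 := hn k (by omega)
          unfold nseP at h7
          rw [if_neg (by omega), if_neg (by omega)] at h7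
          simp only [map_sub, eval_X, eval_C] at h7
          exact (sub_eq_zero.1 h7).symm

end Pool.Agent.J6H79.SM
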