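import Pool.Agent.J6H79.SM.Stm
import Pool.Agent.J6H79.FR.Par

/-!
# Project SM: rounding (module SM-12, helper5)
-/

set_option autoImplicit false

namespace Pool.Agent.J6H79.SM.Round

open Pool.Agent.NPC Pool.Agent.NPC.ER Pool.Agent.J6H79.FR Pool.Agent.NPC.ER.J6H79

/-- integer multiples of `1 / N` -/
def isM (N : ℕ) (a : ℝ) : Prop := ∃ z : ℤ, a = z / N

theorem isM.mono {N N' : ℕ} (hd : N ∣ N') (h0 : N' ≠ 0) {a : ℝ} (h : isM N a) : isM N' a := by
  obtain ⟨z, rfl⟩ := h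
  obtain ⟨c, rfl⟩ := hd
  have hN : (N : ℝ) ≠ 0 := by
    intro h1
    apply h0
    rw [Nat.cast_eq_zero.1 h1, zero_mul]
  have hc : (c : ℝ) ≠ 0 := by
    intro h1
    apply h0
    rw [Nat.cast_eq_zero.1 h1, mul_zero]
  refine ⟨z * c, ?_⟩
  push_cast
  field_simp

theorem isM.sub {N : ℕ} {a b : ℝ} (ha : isM N a) (hb : isM N b) : isM N (a - b) := by
  obtain ⟨z, rfl⟩ := ha
  obtain ⟨w, rfl⟩ := hb
  exact ⟨z - w, by push_cast; ring⟩

theorem isM.add {N : ℕ} {a b : ℝ} (ha : isM N a) (hb : isM N b) : isM N (a + b) := by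
  obtain ⟨z, rfl⟩ := ha
  obtain ⟨w, rfl⟩ := hb
  exact ⟨z + w, by push_cast; ring⟩

theorem term {W : ℕ} (hW : 1 ≤ W) {x : ℕ → ℝ} (hx : ∀ i, isM W (x i)) (t : Tm) :
    isM (W ^ tsz t) (t.eval x) := by
  have hW0 : (W : ℝ) ≠ 0 := by positivity
  induction t with
  | var i =>
    simp only [Tm.eval, tsz, pow_one]
    exact hx i
  | zero => exact ⟨0, by simp [Tm.eval]⟩
  | one => exact ⟨W, by simp [Tm.eval, tsz, hW0]⟩
  | add s t ihs iht =>
    obtain ⟨a, ha⟩ := ihs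
    obtain ⟨b, hb⟩ := iht
    refine ⟨a * W ^ (tsz t + 1) + b * W ^ (tsz s + 1), ?_⟩
    simp only [Tm.eval, tsz, ha, hb]
    push_cast
    rw [div_add_div _ _ (by positivity) (by positivity), div_eq_div_iff (by positivity) (by positivity)]
    ring
  | neg t ih =>
    obtain ⟨a, ha⟩ := ih
    refine ⟨-a * W, ?_⟩
    simp only [Tm.eval, tsz, ha]
    push_cast
    rw [← neg_div, div_eq_div_iff (by positivity) (by positivity)]
    ring
  | mul s t ihs iht =>
    obtain ⟨a, ha⟩ := ihs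
    obtain ⟨b, hb⟩ := iht
    refine ⟨a * b * W, ?_⟩
    simp only [Tm.eval, tsz, ha, hb]
    push_cast
    rw [div_mul_div_comm, div_eq_div_iff (by positivity) (by positivity)]
    ring

theorem toward_zero (a : ℝ) : ∃ z : ℤ, |(z : ℝ)| ≤ |a| ∧ |a - z| ≤ 1 := by
  rcases le_total 0 a with h | h
  · refine ⟨⌊a⌋, ?_, ?_⟩
    · have h1 : (0 : ℝ) ≤ ⌊a⌋ := by exact_mod_cast Int.floor_nonneg.2 h
      rw [abs_of_nonneg h1, abs_of_nonneg h]
      exact Int.floor_le a
    · rw [abs_le]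
      constructor
      · linarith [Int.floor_le a]
      · linarith [Int.lt_floor_add_one a]
  · refine ⟨⌈a⌉, ?_, ?_⟩
    · have h1 : ((⌈a⌉ : ℤ) : ℝ) ≤ 0 := by exact_mod_cast Int.ceil_le.2 (by simpa using h)
      rw [abs_of_nonpos h1, abs_of_nonpos h]
      linarith [Int.le_ceil a]
    · rw [abs_le]
      constructor
      · linarith [Int.ceil_lt_add_one a]
      · linarith [Int.le_ceil a]

theorem atom {N : ℕ} {D0 D1 u ε : ℝ} (h : |D0 - D1| < ε) (hD : isM N D1) (hu : isM N u) (hε : isM N ε) :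
    ∃ y : ℝ, (D0 = u ↔ D1 = y) ∧ (D0 < u ↔ D1 < y) ∧ isM N y ∧ |y - u| ≤ ε := by
  have h1 := abs_lt.1 h
  have hε0 : 0 ≤ ε := (abs_nonneg _).trans h.le
  rcases lt_trichotomy D0 u with h2 | h2 | h2
  · refine ⟨u + ε, ⟨fun h3 => ?_, fun h3 => ?_⟩, ⟨fun _ => ?_, fun _ => h2⟩, hu.add hε, ?_⟩
    · linarith
    · linarith
    · linarith
    · rw [add_sub_cancel_left, abs_of_nonneg hε0]
  · refine ⟨D1, ⟨fun _ => rfl, fun _ => h2⟩, ⟨fun h3 => ?_, fun h3 => ?_⟩, hD, ?_⟩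
    · linarith
    · linarith
    · rw [← h2, abs_sub_comm]
      exact h.le
  · refine ⟨u - ε, ⟨fun h3 => ?_, fun h3 => ?_⟩, ⟨fun h3 => ?_, fun h3 => ?_⟩, hu.sub hε, ?_⟩
    · linarith
    · linarith
    · linarith
    · linarith
    · rw [sub_sub_cancel_left, abs_neg, abs_of_nonneg hε0]

theorem key (h : S_nz) {N L : ℕ} {x x' u : ℕ → ℝ} {ε : ℝ} (hu : ∀ k, isM N (u k)) (hε : isM N ε)
    (hc : ∀ t : Tm, tsz t ≤ L → |t.eval x - t.eval x'| < ε / 2) (hM : ∀ t : Tm, tsz t ≤ L → isM N (t.eval x')) :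
    ∀ (φ : Fm) (k : ℕ), φ.toks.length ≤ L → ∃ y : ℕ → ℝ, (PH x u k φ ↔ PH x' y k φ) ∧
      ∀ j, k ≤ j → j < k + na φ → isM N (y j) ∧ |y j - u j| ≤ ε := by
  have hat : ∀ (s t : Tm) (k : ℕ), tsz s ≤ L → tsz t ≤ L → ∃ y : ℝ,
      (s.eval x = t.eval x + u k ↔ s.eval x' = t.eval x' + y) ∧
      (s.eval x < t.eval x + u k ↔ s.eval x' < t.eval x' + y) ∧
      (s.eval x ≤ t.eval x + u k ↔ s.eval x' ≤ t.eval x' + y) ∧ isM N y ∧ |y - u k| ≤ ε := by
    intro s t k hs ht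
    have h1 := abs_lt.1 (hc s hs)
    have h2 := abs_lt.1 (hc t ht)
    obtain ⟨y, hy1, hy2, hy3, hy4⟩ := atom (D0 := s.eval x - t.eval x) (D1 := s.eval x' - t.eval x')
      (u := u k) (ε := ε) (abs_lt.2 ⟨by linarith, by linarith⟩) ((hM s hs).sub (hM t ht)) (hu k) hε
    have e1 : s.eval x = t.eval x + u k ↔ s.eval x' = t.eval x' + y := by
      rw [← sub_eq_iff_eq_add', ← sub_eq_iff_eq_add']
      exact hy1
    have e2 : s.eval x < t.eval x + u k ↔ s.eval x' < t.eval x' + y := by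
      rw [← sub_lt_iff_lt_add', ← sub_lt_iff_lt_add']
      exact hy2
    refine ⟨y, e1, e2, ?_, hy3, hy4⟩
    rw [le_iff_lt_or_eq, le_iff_lt_or_eq, e1, e2]
  intro φ
  induction φ with
  | eq s t =>
    intro k hL
    simp only [Fm.toks, List.length_append, List.length_singleton, tsz_eq] at hL
    obtain ⟨y, h1, h2, h3, h4, h5⟩ := hat s t k (by omega) (by omega)
    refine ⟨fun _ => y, h1, fun j hj hj' => ?_⟩
    have : j = k := by simp only [na] at hj'; omega
    subst this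
    exact ⟨h4, h5⟩
  | lt s t =>
    intro k hL
    simp only [Fm.toks, List.length_append, List.length_singleton, tsz_eq] at hL
    obtain ⟨y, h1, h2, h3, h4, h5⟩ := hat s t k (by omega) (by omega)
    refine ⟨fun _ => y, h2, fun j hj hj' => ?_⟩
    have : j = k := by simp only [na] at hj'; omega
    subst this
    exact ⟨h4, h5⟩
  | le s t =>
    intro k hL
    simp only [Fm.toks, List.length_append, List.length_singleton, tsz_eq] at hL
    obtain ⟨y, h1, h2, h3, h4, h5⟩ := hat s t k (by omega) (by omega)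
    refine ⟨fun _ => y, h3, fun j hj hj' => ?_⟩
    have : j = k := by simp only [na] at hj'; omega
    subst this
    exact ⟨h4, h5⟩
  | not φ ih =>
    intro k hL
    simp only [Fm.toks, List.length_append, List.length_singleton] at hL
    obtain ⟨y, h1, h2⟩ := ih k (by omega)
    exact ⟨y, not_congr h1, h2⟩
  | and φ ψ ih1 ih2 =>
    intro k hL
    simp only [Fm.toks, List.length_append, List.length_singleton] at hL
    obtain ⟨y1, h1, h1'⟩ := ih1 k (by omega)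
    obtain ⟨y2, h2, h2'⟩ := ih2 (k + na φ) (by omega)
    refine ⟨fun j => if j < k + na φ then y1 j else y2 j, ?_, fun j hj hj' => ?_⟩
    · refine and_congr (h1.trans ?_) (h2.trans ?_)
      · exact (h φ).2.2.2.2.2 k x' x' y1 _ (fun _ _ => rfl) fun j _ hj => (if_pos hj).symm
      · exact (h ψ).2.2.2.2.2 (k + na φ) x' x' y2 _ (fun _ _ => rfl) fun j hj _ =>
          (if_neg (by omega)).symm
    · simp only [na] at hj'
      beta_reduce
      split_ifs with h3
      · exact h1' j hj h3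
      · exact h2' j (by omega) (by omega)
  | or φ ψ ih1 ih2 =>
    intro k hL
    simp only [Fm.toks, List.length_append, List.length_singleton] at hL
    obtain ⟨y1, h1, h1'⟩ := ih1 k (by omega)
    obtain ⟨y2, h2, h2'⟩ := ih2 (k + na φ) (by omega)
    refine ⟨fun j => if j < k + na φ then y1 j else y2 j, ?_, fun j hj hj' => ?_⟩
    · refine or_congr (h1.trans ?_) (h2.trans ?_)
      · exact (h φ).2.2.2.2.2 k x' x' y1 _ (fun _ _ => rfl) fun j _ hj => (if_pos hj).symm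
      · exact (h ψ).2.2.2.2.2 (k + na φ) x' x' y2 _ (fun _ _ => rfl) fun j hj _ =>
          (if_neg (by omega)).symm
    · simp only [na] at hj'
      beta_reduce
      split_ifs with h3
      · exact h1' j hj h3
      · exact h2' j (by omega) (by omega)

end Pool.Agent.J6H79.SM.Round

namespace Pool.Agent.J6H79.SM

open Pool.Agent.NPC Pool.Agent.NPC.ER Pool.Agent.J6H79.FR Pool.Agent.NPC.ER.J6H79 Round

theorem round (h : S_nz) : S_round := by
  intro K b φ q r hq hr hsat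
  obtain ⟨x, hx, hPH⟩ := hsat
  obtain ⟨L, hL⟩ : ∃ L, L = φ.toks.length := ⟨_, rfl⟩
  obtain ⟨W, hW⟩ : ∃ W, W = W0 b q φ := ⟨_, rfl⟩
  have hW' : W = 4 * q * (b + 2) ^ (2 * L + 4) := by rw [hW, hL]; rfl
  have hWW : WW b q φ = W ^ (L + 1) := by rw [hW, hL]; rfl
  have hW1 : 1 ≤ W := by
    rw [hW']
    exact Nat.one_le_iff_ne_zero.2 (by positivity)
  have hWr : (0 : ℝ) < W := by exact_mod_cast hW1
  have hWW0 : W ^ (L + 1) ≠ 0 := by positivity
  choose zz hz1 hz2 using fun i => toward_zero (x i * W)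
  obtain ⟨x', hx'⟩ : ∃ x' : ℕ → ℝ, x' = fun i => if i < K then (zz i : ℝ) / W else x i := ⟨_, rfl⟩
  have hx1 : ∀ i, i < K → x' i = (zz i : ℝ) / W := fun i hi => by rw [hx']; exact if_pos hi
  have hx2 : ∀ i, K ≤ i → x' i = x i := fun i hi => by rw [hx']; exact if_neg (by omega)
  have habs : ∀ i, |x' i| ≤ |x i| := by
    intro i
    rcases lt_or_ge i K with hi | hi
    · rw [hx1 i hi, abs_div, abs_of_pos hWr, div_le_iff₀ hWr]
      refine (hz1 i).trans (le_of_eq ?_)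
      rw [abs_mul, abs_of_pos hWr]
    · rw [hx2 i hi]
  have hclose : ∀ i, |x i - x' i| ≤ 1 / W := by
    intro i
    rcases lt_or_ge i K with hi | hi
    · rw [hx1 i hi, le_div_iff₀ hWr]
      calc |x i - (zz i : ℝ) / W| * W = |(x i - (zz i : ℝ) / W) * W| := by rw [abs_mul, abs_of_pos hWr]
        _ = |x i * W - zz i| := by rw [sub_mul, div_mul_cancel₀ _ hWr.ne']
        _ ≤ 1 := hz2 i
    · rw [hx2 i hi, sub_self, abs_zero]
      positivity
  have hb0 : (0 : ℝ) ≤ b := Nat.cast_nonneg b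
  have hxb : ∀ i, |x i| ≤ (b : ℝ) + 2 := by
    intro i
    rcases lt_or_ge i K with hi | hi
    · linarith [hx.1 i hi]
    · rcases hx.2 i hi with h0 | h0 <;> rw [h0] <;> simp <;> linarith
  have hM : ∀ i, isM W (x' i) := by
    intro i
    rcases lt_or_ge i K with hi | hi
    · exact ⟨zz i, hx1 i hi⟩
    · rw [hx2 i hi]
      rcases hx.2 i hi with h0 | h0
      · exact ⟨0, by rw [h0]; simp⟩
      · exact ⟨W, by rw [h0]; simp [hWr.ne']⟩
  have hq0 : (0 : ℝ) < q := by exact_mod_cast hq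
  have h4q : isM (4 * q) (1 / (4 * (q : ℝ))) := ⟨1, by push_cast; rfl⟩
  have hdvd : 4 * q ∣ W ^ (L + 1) := by
    refine Dvd.dvd.trans ⟨(b + 2) ^ (2 * L + 4), hW'⟩ (dvd_pow_self W (by omega))
  have hu : ∀ k, isM (W ^ (L + 1)) (nse q r k) := by
    intro k
    refine isM.mono ((Dvd.intro_left 4 rfl).trans hdvd) hWW0 ?_
    exact ⟨(r.getD k 0 : ℕ), by simp [nse]⟩
  have hc : ∀ t : Tm, tsz t ≤ L → |t.eval x - t.eval x'| < 1 / (4 * (q : ℝ)) / 2 := by
    intro t ht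
    have h1 := eval_lip (M := (b : ℝ) + 2) (η := 1 / W) (by linarith) (by positivity) hxb
      (fun i => (habs i).trans (hxb i)) hclose t
    refine h1.trans_lt ?_
    have h2 : ((b : ℝ) + 2) ^ (2 * tsz t) ≤ ((b : ℝ) + 2) ^ (2 * L) :=
      pow_le_pow_right₀ (by linarith) (by omega)
    have h3 : (W : ℝ) = 4 * q * (((b : ℝ) + 2) ^ (2 * L) * ((b : ℝ) + 2) ^ 4) := by
      rw [hW', ← pow_add]
      push_cast
      rfl
    have h4 : (16 : ℝ) ≤ ((b : ℝ) + 2) ^ 4 := by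
      calc (16 : ℝ) = 2 ^ 4 := by norm_num
        _ ≤ _ := pow_le_pow_left₀ (by norm_num) (by linarith) 4
    have h5 : 0 < ((b : ℝ) + 2) ^ (2 * L) := by positivity
    have h6 : 0 < ((b : ℝ) + 2) ^ (2 * tsz t) := by positivity
    rw [div_div, one_div_mul_eq_div, div_lt_div_iff₀ hWr (by positivity), h3, one_mul]
    calc ((b : ℝ) + 2) ^ (2 * tsz t) * (4 * q * 2) ≤ ((b : ℝ) + 2) ^ (2 * L) * (4 * q * 2) :=
          mul_le_mul_of_nonneg_right h2 (by positivity)
      _ < ((b : ℝ) + 2) ^ (2 * L) * (4 * q * 16) := by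
          refine mul_lt_mul_of_pos_left ?_ h5
          linarith
      _ ≤ ((b : ℝ) + 2) ^ (2 * L) * (4 * q * ((b : ℝ) + 2) ^ 4) := by
          refine mul_le_mul_of_nonneg_left (mul_le_mul_of_nonneg_left h4 (by positivity)) h5.le
      _ = _ := by ring
  obtain ⟨y, hy1, hy2⟩ := key h hu (h4q.mono hdvd hWW0) hc
    (fun t ht => (term hW1 hM t).mono (pow_dvd_pow W (by omega)) hWW0) φ 0 (le_of_eq hL.symm)
  refine ⟨x', y, ⟨fun i hi => (habs i).trans (hx.1 i hi), fun i hi => by rw [hx2 i hi]; exact hx.2 i hi⟩,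
    hy1.1 hPH, fun i => ?_, fun k hk => ?_⟩
  · rw [hWW]
    exact (hM i).mono (dvd_pow_self W (by omega)) hWW0
  · rw [hWW]
    exact hy2 k (Nat.zero_le _) (by omega)

end Pool.Agent.J6H79.SM
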