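import Pool.Agent.J6H79.SM.Stm

/-!
# The system of a formula (`S_trans`)
-/

set_option autoImplicit false

namespace Pool.Agent.J6H79.SM.Trans

open Pool.Agent.NPC Pool.Agent.NPC.ER

lemma step_le (s : St) (t : Tok) : (tstep s t).2.2.length ≤ s.2.2.length + 7 := by
  obtain ⟨n, st, o⟩ := s
  cases t <;> simp [tstep]

lemma fold_le (l : List Tok) : ∀ s : St,
    (l.foldl tstep s).2.2.length ≤ s.2.2.length + 7 * l.length := by
  induction l with
  | nil => intro s; simp
  | cons t l ih =>
    intro s
    have h1 := ih (tstep s t)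
    have h2 := step_le s t
    rw [List.foldl_cons, List.length_cons]
    omega

end Pool.Agent.J6H79.SM.Trans

namespace Pool.Agent.J6H79.SM

open Pool.Agent.NPC Pool.Agent.NPC.ER

/-- the system of a formula -/
theorem trans_ok : S_trans := by
  intro φ
  constructor
  · have h := Trans.fold_le φ.toks (0, [], [])
    unfold sysOf Pool.Agent.NPC.ER.trans
    simp only [List.length_cons, List.length_nil] at h ⊢
    omega
  intro x
  obtain ⟨n', p, q, o', e, hn, hp, hq, A, hsound, hcomp⟩ := fspec φ 0 [] []
  have e' : sysOf φ = Con.add p p p :: o' := by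
    simp only [sysOf, e, top_cons, List.append_nil]
  rw [e']
  constructor
  · intro hx
    obtain ⟨v', h1, h2, h3, _⟩ := hcomp (fun i => x (i / 2))
    have h4 : ∀ i, v' (2 * i) = x i := by
      intro i
      rw [h1 _ (av_even _ _)]
      simp
    refine ⟨v', h4, sysHolds_cons.2 ⟨?_, h2⟩⟩
    have : (fun i => v' (2 * i)) = x := funext h4
    rw [this] at h3
    simp [Con.Holds, h3 hx]
  · rintro ⟨w, hw, hv⟩
    rw [sysHolds_cons] at hv
    have h5 := (hsound w hv.2).1 (by have : w p + w p = w p := hv.1; linarith)
    have : (fun i => w (2 * i)) = x := funext hw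
    rwa [this] at h5

end Pool.Agent.J6H79.SM
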