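import Pool.Agent.J6H79.SM.Stm

/-!
# The verifier for perturbed constant terms runs in polynomial time
-/

set_option autoImplicit false

namespace Pool.Agent.J6H79.SM.VPoly

open Pool.Agent.NPC Pool.Agent.NPC.ER Pool.Agent.J6H79.FR Pool.Agent.NPC.ER.J6H79

variable {α : Type} [TEnc α] {b q K M W : α → ℕ} {φ : α → Fm} {C : α → List (ℕ × ℕ × ℕ)}

theorem poly_mb (hφ : NPC.Poly φ) : NPC.Poly (fun a => mb (φ a)) :=
  NPC.Poly.add (NPC.Poly.sum (NPC.Poly.map (F := fun _ t => t.code.2) (poly_toks hφ)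
    (NPC.Poly.snd (poly_tok_code (NPC.Poly.snd NPC.Poly.id))))) (NPC.Poly.const 1)

theorem ulen (hφ : NPC.Poly φ) : UPoly (fun a => (φ a).toks.length) := UPoly.length (poly_toks hφ)

theorem poly_W0 (hb : NPC.Poly b) (hq : NPC.Poly q) (hφ : NPC.Poly φ) :
    NPC.Poly (fun a => W0 (b a) (q a) (φ a)) :=
  NPC.Poly.mul (NPC.Poly.mul (NPC.Poly.const 4) hq) (poly_pow (NPC.Poly.add hb (NPC.Poly.const 2))
    (((UPoly.const 2).mul (ulen hφ)).add (UPoly.const 4)))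

theorem poly_WW (hb : NPC.Poly b) (hq : NPC.Poly q) (hφ : NPC.Poly φ) :
    NPC.Poly (fun a => WW (b a) (q a) (φ a)) :=
  poly_pow (poly_W0 hb hq hφ) ((ulen hφ).add (UPoly.const 1))

theorem poly_EE (hb : NPC.Poly b) (hq : NPC.Poly q) (hφ : NPC.Poly φ) :
    NPC.Poly (fun a => EE (b a) (q a) (φ a)) :=
  NPC.Poly.add (poly_pow (poly_WW hb hq hφ) (((UPoly.const 3).mul (ulen hφ)).add (UPoly.const 2)))
    (NPC.Poly.const 1)

theorem poly_cmp {t : α → Tok} (ht : NPC.Poly t) : NPC.Poly (fun a => cmp (t a)) :=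
  NPC.Poly.and (NPC.Poly.decide_le (NPC.Poly.const 6) (NPC.Poly.fst (poly_tok_code ht)))
    (NPC.Poly.decide_le (NPC.Poly.fst (poly_tok_code ht)) (NPC.Poly.const 8))

theorem poly_tk {l : α → List Tok} (hM : NPC.Poly M) (hl : NPC.Poly l) :
    NPC.Poly (fun a => tk (M a) (l a)) := by
  have h1 : NPC.Poly (fun x : α × (Tok × ℕ) => ((l x.1).zipIdx.filter fun p' =>
      cmp p'.1 && decide (p'.2 < x.2.2)).length) :=
    NPC.Poly.length (NPC.Poly.filter (p := fun (x : α × (Tok × ℕ)) p' => cmp p'.1 &&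
      decide (p'.2 < x.2.2)) (NPC.Poly.zipIdx (hl.comp (NPC.Poly.fst NPC.Poly.id)))
      (NPC.Poly.and (poly_cmp (NPC.Poly.fst (NPC.Poly.snd NPC.Poly.id)))
        (NPC.Poly.decide_lt (NPC.Poly.snd (NPC.Poly.snd NPC.Poly.id)) (NPC.Poly.snd (NPC.Poly.snd (NPC.Poly.fst NPC.Poly.id))))))
  have h2 : NPC.Poly (fun x : α × (Tok × ℕ) => x.2.1) := NPC.Poly.fst (NPC.Poly.snd NPC.Poly.id)
  have h3 : NPC.Poly (fun x : α × (Tok × ℕ) => Tok.var (M x.1 + ((l x.1).zipIdx.filter fun p' =>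
      cmp p'.1 && decide (p'.2 < x.2.2)).length)) :=
    poly_tok_var' (NPC.Poly.add (hM.comp (NPC.Poly.fst NPC.Poly.id)) h1)
  exact NPC.Poly.flatMap (F := fun a (p : Tok × ℕ) => if cmp p.1 then
    [Tok.var (M a + ((l a).zipIdx.filter fun p' => cmp p'.1 && decide (p'.2 < p.2)).length),
      Tok.add, p.1] else [p.1]) (NPC.Poly.zipIdx hl)
    (NPC.Poly.ite (p := fun x : α × (Tok × ℕ) => cmp x.2.1 = true)
      ((poly_cmp h2).congr fun a => by simp)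
      (NPC.Poly.cons h3 (NPC.Poly.cons (NPC.Poly.const _) (NPC.Poly.cons h2 (NPC.Poly.const []))))
      (NPC.Poly.cons h2 (NPC.Poly.const [])))

theorem poly_outS (hb : NPC.Poly b) (hq : NPC.Poly q) (hφ : NPC.Poly φ) (hC : NPC.Poly C) :
    NPC.Poly (fun a => outS (b a) (q a) (φ a) (C a)) := by
  have henv : NPC.Poly (fun a => ((1 : ℕ), mb (φ a) + (φ a).toks.length + 1, (0 : ℕ),
      WW (b a) (q a) (φ a), EE (b a) (q a) (φ a), EE (b a) (q a) (φ a), C a)) :=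
    NPC.Poly.pair (NPC.Poly.const 1) (NPC.Poly.pair (NPC.Poly.add (NPC.Poly.add (poly_mb hφ) (ulen hφ).toPoly)
      (NPC.Poly.const 1)) (NPC.Poly.pair (NPC.Poly.const 0) (NPC.Poly.pair (poly_WW hb hq hφ)
        (NPC.Poly.pair (poly_EE hb hq hφ) (NPC.Poly.pair (poly_EE hb hq hφ) hC)))))
  exact NPC.Poly.head?_getD (poly_machine henv (poly_tk (poly_mb hφ) (poly_toks hφ))) _

theorem poly_chD {e : α → ℕ × ℕ × ℕ} (hK : NPC.Poly K) (hb : NPC.Poly b) (hM : NPC.Poly M) (hW : NPC.Poly W)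
    (he : NPC.Poly e) : NPC.Poly (fun a => chD (K a) (b a) (M a) (W a) (e a)) := by
  have h1 : NPC.Poly (fun a => (e a).1) := NPC.Poly.fst he
  have h2 : NPC.Poly (fun a => (e a).2.1) := NPC.Poly.fst (NPC.Poly.snd he)
  have h3 : NPC.Poly (fun a => (e a).2.2) := NPC.Poly.snd (NPC.Poly.snd he)
  have h4 : NPC.Poly (fun a => b a * W a) := NPC.Poly.mul hb hW
  exact NPC.Poly.or (NPC.Poly.decide_le hM h1) (NPC.Poly.ite (NPC.Poly.decide_lt h1 hK)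
    (NPC.Poly.and (NPC.Poly.decide_le h2 (NPC.Poly.add h3 h4)) (NPC.Poly.decide_le h3 (NPC.Poly.add h2 h4)))
    (NPC.Poly.or (NPC.Poly.decide_eq h2 h3) (NPC.Poly.decide_eq h2 (NPC.Poly.add h3 hW))))

theorem poly_chN {p : α → ℕ × ℕ} (hq : NPC.Poly q) (hW : NPC.Poly W) (hM : NPC.Poly M) (hC : NPC.Poly C)
    (hp : NPC.Poly p) : NPC.Poly (fun a => chN (q a) (W a) (M a) (C a) (p a)) := by
  have h1 : NPC.Poly (fun a => lk (C a) (M a + (p a).2)) := poly_lk hC (NPC.Poly.add hM (NPC.Poly.snd hp))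
  have h2 : NPC.Poly (fun a => 4 * (q a * (lk (C a) (M a + (p a).2)).1)) :=
    NPC.Poly.mul (NPC.Poly.const 4) (NPC.Poly.mul hq (NPC.Poly.fst h1))
  have h3 : NPC.Poly (fun a => 4 * (q a * (lk (C a) (M a + (p a).2)).2 + (p a).1 * W a)) :=
    NPC.Poly.mul (NPC.Poly.const 4) (NPC.Poly.add (NPC.Poly.mul hq (NPC.Poly.snd h1)) (NPC.Poly.mul (NPC.Poly.fst hp) hW))
  exact NPC.Poly.and (NPC.Poly.decide_le h2 (NPC.Poly.add h3 hW)) (NPC.Poly.decide_le h3 (NPC.Poly.add h2 hW))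

end Pool.Agent.J6H79.SM.VPoly

namespace Pool.Agent.J6H79.SM

open Pool.Agent.NPC Pool.Agent.NPC.ER Pool.Agent.J6H79.FR Pool.Agent.NPC.ER.J6H79
  Pool.Agent.J6H79.SM.VPoly

theorem poly : S_poly := by
  have hK : NPC.Poly (fun p : Inst × List (ℕ × ℕ × ℕ) => p.1.1) := NPC.Poly.fst (NPC.Poly.fst NPC.Poly.id)
  have hb : NPC.Poly (fun p : Inst × List (ℕ × ℕ × ℕ) => p.1.2.1) :=
    NPC.Poly.fst (NPC.Poly.snd (NPC.Poly.fst NPC.Poly.id))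
  have hφ : NPC.Poly (fun p : Inst × List (ℕ × ℕ × ℕ) => p.1.2.2.1) :=
    NPC.Poly.fst (NPC.Poly.snd (NPC.Poly.snd (NPC.Poly.fst NPC.Poly.id)))
  have hq : NPC.Poly (fun p : Inst × List (ℕ × ℕ × ℕ) => p.1.2.2.2.1) :=
    NPC.Poly.fst (NPC.Poly.snd (NPC.Poly.snd (NPC.Poly.snd (NPC.Poly.fst NPC.Poly.id))))
  have hr : NPC.Poly (fun p : Inst × List (ℕ × ℕ × ℕ) => p.1.2.2.2.2) :=
    NPC.Poly.snd (NPC.Poly.snd (NPC.Poly.snd (NPC.Poly.snd (NPC.Poly.fst NPC.Poly.id))))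
  have hC : NPC.Poly (fun p : Inst × List (ℕ × ℕ × ℕ) => p.2) := NPC.Poly.snd NPC.Poly.id
  have hM : NPC.Poly (fun p : Inst × List (ℕ × ℕ × ℕ) => mb p.1.2.2.1) := poly_mb hφ
  have hW : NPC.Poly (fun p : Inst × List (ℕ × ℕ × ℕ) => WW p.1.2.1 p.1.2.2.2.1 p.1.2.2.1) :=
    poly_WW hb hq hφ
  have h1 : NPC.Poly (fun p : Inst × List (ℕ × ℕ × ℕ) => p.2.all (chD p.1.1 p.1.2.1 (mb p.1.2.2.1)
      (WW p.1.2.1 p.1.2.2.2.1 p.1.2.2.1))) :=
    NPC.Poly.all (p := fun (p : Inst × List (ℕ × ℕ × ℕ)) e => chD p.1.1 p.1.2.1 (mb p.1.2.2.1)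
      (WW p.1.2.1 p.1.2.2.2.1 p.1.2.2.1) e) hC
      (poly_chD (hK.comp (NPC.Poly.fst NPC.Poly.id)) (hb.comp (NPC.Poly.fst NPC.Poly.id))
        (hM.comp (NPC.Poly.fst NPC.Poly.id)) (hW.comp (NPC.Poly.fst NPC.Poly.id)) (NPC.Poly.snd NPC.Poly.id))
  have h2 : NPC.Poly (fun p : Inst × List (ℕ × ℕ × ℕ) => p.1.2.2.2.2.zipIdx.all
      (chN p.1.2.2.2.1 (WW p.1.2.1 p.1.2.2.2.1 p.1.2.2.1) (mb p.1.2.2.1) p.2)) :=
    NPC.Poly.all (p := fun (p : Inst × List (ℕ × ℕ × ℕ)) e =>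
      chN p.1.2.2.2.1 (WW p.1.2.1 p.1.2.2.2.1 p.1.2.2.1) (mb p.1.2.2.1) p.2 e) (NPC.Poly.zipIdx hr)
      (poly_chN (hq.comp (NPC.Poly.fst NPC.Poly.id)) (hW.comp (NPC.Poly.fst NPC.Poly.id))
        (hM.comp (NPC.Poly.fst NPC.Poly.id)) (hC.comp (NPC.Poly.fst NPC.Poly.id)) (NPC.Poly.snd NPC.Poly.id))
  exact NPC.Poly.and h1 (NPC.Poly.and h2 (NPC.Poly.decide_eq (NPC.Poly.fst (poly_outS hb hq hφ hC))
    (NPC.Poly.const 1)))

end Pool.Agent.J6H79.SM
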