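import Pool.Agent.J6H79.SM.Fin
import Pool.Agent.J6H79.SM.Count
import Pool.Agent.J6H79.SM.Comp
import Pool.Agent.J6H79.SM.ListRep
import Pool.Agent.J6H79.SM.Trans
import Pool.Agent.J6H79.SM.Nz
import Pool.Agent.J6H79.SM.RepM
import Pool.Agent.J6H79.SM.Line
import Pool.Agent.J6H79.SM.Cnt
import Pool.Agent.J6H79.SM.VPoly
import Pool.Agent.J6H79.SM.Exact
import Pool.Agent.J6H79.SM.Mean
import Pool.Agent.J6H79.SM.Round
import Pool.Agent.J6H79.SM.Cert
import Pool.Agent.J6H79.SM.Hard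

/-!
# Perturbed constant terms: putting the modules together
-/

set_option autoImplicit false

namespace Pool.Agent.J6H79.SM

open Pool.Agent.NPC Pool.Agent.NPC.ER

theorem cnt_all : S_cnt := cnt (comp count) (rep list_rep trans_ok nz_ok) line fib nz_ok

theorem member_all :
    ∃ (A : Set (List Bool)) (c : ℕ), InNP A ∧ ∀ (K b : ℕ) (φ : Fm) (q N : ℕ), 1 ≤ q →
      (∀ r : Fin (na φ) → Fin N, PSat K b φ (nse q (List.ofFn fun k => (r k : ℕ))) →
        bits (K, b, φ, q, List.ofFn fun k => (r k : ℕ)) ∈ A) ∧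
      {r : Fin (na φ) → Fin N | bits (K, b, φ, q, List.ofFn fun k => (r k : ℕ)) ∈ A ∧
        ¬ PSat K b φ (nse q (List.ofFn fun k => (r k : ℕ)))}.ncard ≤
          2 ^ (c * φ.toks.length) * N ^ (na φ - 1) :=
  member_of cnt_all poly (mean exact_ok tk_ok nz_ok) (sound nz_ok) (round nz_ok) (cert nz_ok)

end Pool.Agent.J6H79.SM
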