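import Pool.Agent.ER.Defs

/-!
# Random perturbation of the constant terms of a formula: definitions
-/

set_option autoImplicit false

namespace Pool.Agent.J6H79.SM

open Pool.Agent.NPC.ER

/-- The number of atomic formulas (comparisons) in a formula. -/
def na : Fm → ℕ
  | .eq _ _ => 1
  | .lt _ _ => 1
  | .le _ _ => 1
  | .not φ => na φ
  | .and φ ψ => na φ + na ψ
  | .or φ ψ => na φ + na ψ

/-- Truth at the point `x` of the formula in which `u k`, `u (k + 1)`, … are added to the right-hand
sides of the atomic formulas, in their order from left to right. -/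
def PH (x u : ℕ → ℝ) : ℕ → Fm → Prop
  | k, .eq s t => s.eval x = t.eval x + u k
  | k, .lt s t => s.eval x < t.eval x + u k
  | k, .le s t => s.eval x ≤ t.eval x + u k
  | k, .not φ => ¬ PH x u k φ
  | k, .and φ ψ => PH x u k φ ∧ PH x u (k + na φ) ψ
  | k, .or φ ψ => PH x u k φ ∨ PH x u (k + na φ) ψ

/-- The variables `x i` with `i < K` are real numbers of absolute value at most `b`, the others are
`0` or `1`. -/
def Dom (K b : ℕ) (x : ℕ → ℝ) : Prop := (∀ i < K, |x i| ≤ b) ∧ ∀ i, K ≤ i → x i = 0 ∨ x i = 1

/-- The formula with the perturbation `u` is satisfiable in this domain. -/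
def PSat (K b : ℕ) (φ : Fm) (u : ℕ → ℝ) : Prop := ∃ x : ℕ → ℝ, Dom K b x ∧ PH x u 0 φ

/-- The perturbation given by a list of numerators and a common denominator. -/
noncomputable def nse (q : ℕ) (r : List ℕ) (k : ℕ) : ℝ := (r.getD k 0 : ℝ) / q

end Pool.Agent.J6H79.SM
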