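import Pool.Agent.J6H79.SM.Stm

/-!
# Perturbed constant terms: membership in `NP` with rare exceptions
-/

set_option autoImplicit false

namespace Pool.Agent.J6H79.SM

open Pool.Agent.NPC Pool.Agent.NPC.ER Pool.Agent.J6H79.FR Pool.Agent.NPC.ER.J6H79

theorem member_of (h1 : S_cnt) (h2 : S_poly) (h3 : S_mean) (h4 : S_sound) (h5 : S_round)
    (h6 : S_cert) :
    ∃ (A : Set (List Bool)) (c : ℕ), InNP A ∧ ∀ (K b : ℕ) (φ : Fm) (q N : ℕ), 1 ≤ q →
      (∀ r : Fin (na φ) → Fin N, PSat K b φ (nse q (List.ofFn fun k => (r k : ℕ))) →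
        bits (K, b, φ, q, List.ofFn fun k => (r k : ℕ)) ∈ A) ∧
      {r : Fin (na φ) → Fin N | bits (K, b, φ, q, List.ofFn fun k => (r k : ℕ)) ∈ A ∧
        ¬ PSat K b φ (nse q (List.ofFn fun k => (r k : ℕ)))}.ncard ≤
          2 ^ (c * φ.toks.length) * N ^ (na φ - 1) := by
  obtain ⟨c, hc⟩ := h1
  obtain ⟨p, hp⟩ := h6
  have hN : InNPP (fun I : Inst => ∃ w : List (ℕ × ℕ × ℕ), sz w ≤ p.eval (sz I) ∧
      ver (I, w) = true) := inNPP_of h2 p fun _ => Iff.rfl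
  refine ⟨_, c, hN, fun K b φ q N hq => ⟨fun r hr => ?_, ?_⟩⟩
  · have hl : (List.ofFn fun k => (r k : ℕ)).length = na φ := List.length_ofFn
    obtain ⟨x, y, hx, hxy, hxz, hyz⟩ := h5 K b φ q _ hq hl hr
    obtain ⟨C, hC, hG⟩ := hp K b φ q _ hq hl x y hx hxy hxz hyz
    exact bits_mem_lang.2 ⟨C, hC, (h3 K b φ q _ C hq).2 hG⟩
  · refine le_trans (Set.ncard_le_ncard (fun r hr => ?_) (Set.toFinite _)) (hc K b φ q N hq)
    have hl : (List.ofFn fun k => (r k : ℕ)).length = na φ := List.length_ofFn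
    obtain ⟨hA, hn⟩ := hr
    obtain ⟨C, -, hver⟩ := bits_mem_lang.1 hA
    exact ⟨hn, h4 K b φ q _ C hq hl ((h3 K b φ q _ C hq).1 hver)⟩

end Pool.Agent.J6H79.SM
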