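import Pool.Agent.J6H79.SM.Stm
import Pool.Agent.J6H79.FR.Hard2

/-!
# Without perturbation the problem is hard for the existential theory of the reals
-/

set_option autoImplicit false

namespace Pool.Agent.J6H79.SM

namespace Hard

open Pool.Agent.NPC Pool.Agent.NPC.ER Pool.Agent.J6H79.FR Pool.Agent.NPC.ER.J6H79
  Pool.Agent.J6H79.RS Pool.Agent.NPC.H670R2

/-! ### Zero perturbation -/

theorem ph_zero (x : ℕ → ℝ) (φ : Fm) : ∀ k, PH x (fun _ => 0) k φ ↔ φ.Holds x := by
  induction φ with
  | eq s t => intro k; simp [PH, Fm.Holds]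
  | lt s t => intro k; simp [PH, Fm.Holds]
  | le s t => intro k; simp [PH, Fm.Holds]
  | not φ ih => intro k; simp [PH, Fm.Holds, ih]
  | and φ ψ ih1 ih2 => intro k; simp [PH, Fm.Holds, ih1, ih2]
  | or φ ψ ih1 ih2 => intro k; simp [PH, Fm.Holds, ih1, ih2]

/-! ### The formula of a constraint -/

/-- eight times a term -/
def oct (t : Tm) : Tm := .add (.add (.add t t) (.add t t)) (.add (.add t t) (.add t t))

/-- the formula of a constraint, `one i` being read as `8 x = 1` -/
def conG : Con → Fm
  | .one i => .eq (oct (.var i)) .one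
  | .add i j k => .eq (.add (.var i) (.var j)) (.var k)
  | .mul i j k => .eq (.mul (.var i) (.var j)) (.var k)

theorem holds_conG (x : ℕ → ℝ) (c : Con) : (conG c).Holds x ↔ c.HoldsC (1 / 8) x := by
  cases c with
  | one i =>
    simp only [conG, oct, Fm.Holds, Tm.eval, Con.HoldsC]
    constructor
    · intro h; linarith
    · intro h; rw [h]; norm_num
  | add i j k => rfl
  | mul i j k => rfl

theorem conG_eq (c : Con) : conG c = if c.code.1 = 0 then .eq (oct (.var c.code.2.1)) .one else
    if c.code.1 = 1 then .eq (.add (.var c.code.2.1) (.var c.code.2.2.1)) (.var c.code.2.2.2) else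
    .eq (.mul (.var c.code.2.1) (.var c.code.2.2.1)) (.var c.code.2.2.2) := by
  cases c <;> rfl

theorem poly_oct {α : Type} [TEnc α] {t : α → Tm} (ht : NPC.Poly t) :
    NPC.Poly (fun a => oct (t a)) := by
  have h1 := poly_tadd ht ht
  have h2 := poly_tadd h1 h1
  exact poly_tadd h2 h2

theorem poly_conG {α : Type} [TEnc α] {c : α → Con} (hc : NPC.Poly c) :
    NPC.Poly (fun a => conG (c a)) := by
  have h0 : NPC.Poly (fun a => (c a).code) := poly_con_code hc
  have h1 := NPC.Poly.fst h0
  have h2 := poly_tvar (NPC.Poly.fst (NPC.Poly.snd h0))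
  have h3 := poly_tvar (NPC.Poly.fst (NPC.Poly.snd (NPC.Poly.snd h0)))
  have h4 := poly_tvar (NPC.Poly.snd (NPC.Poly.snd (NPC.Poly.snd h0)))
  exact (NPC.Poly.ite (NPC.Poly.decide_eq h1 (NPC.Poly.const 0))
    (poly_eq (poly_oct h2) (NPC.Poly.const .one))
    (NPC.Poly.ite (NPC.Poly.decide_eq h1 (NPC.Poly.const 1)) (poly_eq (poly_tadd h2 h3) h4)
      (poly_eq (poly_tmul h2 h3) h4))).congr fun a => (conG_eq _).symm

/-! ### The formula of a system -/

/-- the number of variables -/
def cnt (S : List Con) : ℕ := (svars (bsys S)).length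

/-- the formula -/
def frm (S : List Con) : Fm := conj ((rL (bsys S)).map conG)

theorem holds_frm (S : List Con) (x : ℕ → ℝ) :
    (frm S).Holds x ↔ ∀ c ∈ rL (bsys S), c.HoldsC (1 / 8) x := by
  unfold frm
  rw [holds_conj]
  constructor
  · intro h d hd
    rw [← holds_conG]
    exact h _ (List.mem_map_of_mem hd)
  · intro h φ hφ
    obtain ⟨d, hd, rfl⟩ := List.mem_map.1 hφ
    rw [holds_conG]
    exact h d hd

theorem holdsC_rnm (κ : ℝ) (f : ℕ → ℕ) (v : ℕ → ℝ) (c : Con) :
    (rnm f c).HoldsC κ v ↔ c.HoldsC κ fun i => v (f i) := by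
  cases c <;> rfl

theorem holdsC_congr {κ : ℝ} {v w : ℕ → ℝ} {c : Con} (h : ∀ i ∈ c.vars, v i = w i) :
    c.HoldsC κ v ↔ c.HoldsC κ w := by
  cases c <;> simp [Con.vars] at h <;> simp [Con.HoldsC, h]

theorem psat_frm (S : List Con) : PSat (cnt S) 1 (frm S) (fun _ => 0) ↔ ER.Sat S := by
  constructor
  · rintro ⟨x, _, hx⟩
    rw [ph_zero, holds_frm] at hx
    refine sat_of_bsys (w := fun i => x (nm (bsys S) i)) fun c hc => ?_
    rw [← holdsC_rnm]
    exact hx _ (List.mem_map_of_mem hc)
  · intro h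
    obtain ⟨w, hw, hS⟩ := bsys_of_sat h
    refine ⟨fun i => if i < cnt S then w ((svars (bsys S)).getD i 0) else 0, ⟨?_, ?_⟩, ?_⟩
    · intro i hi
      simp only [if_pos hi]
      refine (hw _).trans ?_
      norm_num
    · intro i hi
      left
      simp only [if_neg (not_lt.2 hi)]
    · rw [ph_zero, holds_frm]
      intro c hc
      have h0 := vars_rL c hc
      obtain ⟨c', hc', rfl⟩ := List.mem_map.1 hc
      refine (holdsC_congr (v := fun i => if i < cnt S then w ((svars (bsys S)).getD i 0) else 0)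
        (w := fun i => w ((svars (bsys S)).getD i 0)) fun i hi => ?_).2 ?_
      · exact if_pos (h0 i hi)
      · rw [holdsC_rnm]
        refine (holdsC_congr fun i hi => ?_).2 (hS c' hc')
        have h2 : nm (bsys S) i < (svars (bsys S)).length :=
          List.idxOf_lt_length_of_mem (mem_svars hc' hi)
        show w ((svars (bsys S)).getD (nm (bsys S) i) 0) = w i
        congr 1
        rw [List.getD_eq_getElem _ _ h2]
        exact List.getElem_idxOf h2

theorem poly_frm : NPC.Poly (fun S : List Con => (cnt S, frm S)) := by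
  have h1 : NPC.Poly (fun S : List Con => bsys S) := poly_bsys NPC.Poly.id
  refine NPC.Poly.pair (NPC.Poly.length (poly_svars h1)) (poly_conj ?_)
  exact NPC.Poly.map (F := fun _ d => conG d) (poly_rL h1) (poly_conG (NPC.Poly.snd NPC.Poly.id))

end Hard

open Pool.Agent.NPC Pool.Agent.NPC.ER Pool.Agent.J6H79.FR Pool.Agent.NPC.ER.J6H79 in
/-- **Hardness without perturbation.** -/
theorem hard : S_hard := by
  intro L hL
  obtain ⟨g, hg, hL⟩ := reduction' Hard.poly_frm hL
  refine ⟨fun w => (Hard.cnt (g w), Hard.frm (g w)), hg, fun w => ?_⟩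
  rw [hL w]
  exact (Hard.psat_frm (g w)).symm

end Pool.Agent.J6H79.SM
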