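import Pool.Agent.J6H79.SM.Defs
import Pool.Agent.J6H79.FR.MachP
import Pool.Agent.ER.Bounded

/-!
# Perturbed constant terms: statements of the modules

Goal: existential sentences over a box, with the constant terms of all atomic formulas perturbed at
random, are in `NP` with one-sided error and an exponentially small proportion of exceptions.
-/

set_option autoImplicit false

namespace Pool.Agent.J6H79.SM

open Pool.Agent.NPC Pool.Agent.NPC.ER Pool.Agent.J6H79.FR Pool.Agent.NPC.ER.J6H79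

/-! ### Number of intervals of a projection -/

/-- **Number of common zeros.** Proof: the functions on `V` given by the monomials with all exponents
`< e` span all functions on `V`: every monomial function is in the span (strong induction on its
degree, an exponent `≥ e` is replaced by `X i ^ e - g i`), and every function on a finite set is
polynomial. -/
def S_count : Prop := ∀ (n e : ℕ) (g : Fin n → MvPolynomial (Fin n) ℝ),
  (∀ i, (MvPolynomial.X i ^ e - g i).totalDegree < e) → ∀ V : Finset (Fin n → ℝ),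
  (∀ v ∈ V, ∀ i, MvPolynomial.eval v (g i) = 0) → V.card ≤ e ^ n

/-- **Number of intervals.** Proof: let `F = G + ε Σ X i ^ 6`, `ε > 0` small. On each of the `k + 1` closed
slabs bounded by the numbers `s (2 i + 1)` for the first coordinate, `F` attains its minimum (`F` tends
to infinity); at the point `(s (2 i), z)` with `G = 0` its value is `ε c`, on the hyperplanes
`p 0 = s (2 i + 1)` it is larger than `ε c` for small `ε` (far away because of `ε R ^ 6 > ε c`, on a ball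
because there `G ≥ g > 0` by compactness). So the minimum is attained at an interior point, where all
partial derivatives of `F` vanish, and there are `k + 1` such points with different first
coordinates; apply `S_count` with `e = 5`, `g i = (6 ε)⁻¹ ∂F/∂X i`. -/
def S_comp : Prop := ∀ (n : ℕ) (G : MvPolynomial (Fin (n + 1)) ℝ), G.totalDegree ≤ 5 →
  (∀ p, 0 ≤ MvPolynomial.eval p G) → ∀ (k : ℕ) (s : ℕ → ℝ), (∀ i < 2 * k, s i < s (i + 1)) →
  (∀ i ≤ k, ∃ z : Fin n → ℝ, MvPolynomial.eval (Fin.cons (s (2 * i)) z) G = 0) →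
  (∀ i < k, ∀ z : Fin n → ℝ, MvPolynomial.eval (Fin.cons (s (2 * i + 1)) z) G ≠ 0) →
  k + 1 ≤ 5 ^ (n + 1)

/-- `U` is a projection of the zero set of a nonnegative polynomial of degree at most `5`, with at most
`n` further variables. -/
def Rep (n : ℕ) (U : Set ℝ) : Prop := ∃ m ≤ n, ∃ G : MvPolynomial (Fin (m + 1)) ℝ,
  G.totalDegree ≤ 5 ∧ (∀ p, 0 ≤ MvPolynomial.eval p G) ∧
  ∀ s, s ∈ U ↔ ∃ z : Fin m → ℝ, MvPolynomial.eval (Fin.cons s z) G = 0

/-- Proof: sum of squares, with the variables of `B` other than `i0` numbered. -/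
def S_list : Prop := ∀ (n : ℕ) (L : List (MvPolynomial (ℕ ⊕ ℕ) ℝ)) (B : Finset (ℕ ⊕ ℕ))
  (i0 : ℕ ⊕ ℕ), (∀ p ∈ L, p.totalDegree ≤ 2 ∧ p.vars ⊆ B) → B.card ≤ n →
  Rep n {s | ∃ w : ℕ ⊕ ℕ → ℝ, w i0 = s ∧ ∀ p ∈ L, MvPolynomial.eval w p = 0}

/-- Proof: as `sat_sysOf` (`ER/ToSys.lean`), the length by `Bd.fold` (`ER/ToSysPoly.lean`). -/
def S_trans : Prop := ∀ φ : Fm, (sysOf φ).length ≤ 7 * φ.toks.length + 1 ∧ ∀ x : ℕ → ℝ,
  φ.Holds x ↔ ∃ w : ℕ → ℝ, (∀ i, w (2 * i) = x i) ∧ SysHolds w (sysOf φ)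

/-! ### The formula with variables for the perturbation -/

/-- the variables `M + k`, `M + k + 1`, … are added to the right-hand sides -/
def nz (M : ℕ) : ℕ → Fm → Fm
  | k, .eq s t => .eq s (.add t (.var (M + k)))
  | k, .lt s t => .lt s (.add t (.var (M + k)))
  | k, .le s t => .le s (.add t (.var (M + k)))
  | k, .not φ => .not (nz M k φ)
  | k, .and φ ψ => .and (nz M k φ) (nz M (k + na φ) ψ)
  | k, .or φ ψ => .or (nz M k φ) (nz M (k + na φ) ψ)

/-- a bound for the indices of the variables -/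
def mb (φ : Fm) : ℕ := (φ.toks.map fun t => t.code.2).sum + 1

/-- Proof: induction on the formula. -/
def S_nz : Prop := ∀ φ : Fm, na φ ≤ φ.toks.length ∧ 1 ≤ na φ ∧
  (∀ t ∈ φ.toks, t.code.2 < mb φ) ∧
  (∀ M k, (nz M k φ).toks.length = φ.toks.length + 2 * na φ) ∧
  (∀ M k, (∀ t ∈ φ.toks, t.code.2 < M) → (∀ t ∈ (nz M k φ).toks, t.code.2 < M + k + na φ) ∧
    ∀ x u : ℕ → ℝ, PH x u k φ ↔ (nz M k φ).Holds fun i => if i < M then x i else u (i - M)) ∧
  (∀ (k : ℕ) (x x' u u' : ℕ → ℝ), (∀ i < mb φ, x i = x' i) →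
    (∀ j, k ≤ j → j < k + na φ → u j = u' j) → (PH x u k φ ↔ PH x' u' k φ))

/-- **Representation.** Proof: `S_nz`, `S_trans` for `nz (mb φ) 0 φ`; constraints
`x i ^ 2 + z ^ 2 = b ^ 2`, `x i ^ 2 = x i` for the variables of `φ`, `(y k - v k) ^ 2 + z ^ 2 = η ^ 2`
for `k < j`, `y k = v k` for `j < k < na φ`; `S_list`. -/
def S_rep : Prop := ∃ c : ℕ, ∀ (K b : ℕ) (φ : Fm) (v : ℕ → ℝ) (η : ℝ) (j : ℕ), 0 ≤ η → j < na φ →
  Rep (c * φ.toks.length) {s | ∃ y : ℕ → ℝ, (∀ k < j, |y k - v k| ≤ η) ∧ y j = s ∧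
    (∀ k, j < k → y k = v k) ∧ PSat K b φ y}

/-! ### Counting -/

/-- Proof: if there are `2 B + 1` such numbers `a`, then for `B + 1` of them there is a point of `U` on
the same side (left or right) of `a / q`; between two consecutive ones of these points of `U` there
is one of the numbers `a / q`. -/
def S_line : Prop := ∀ (U : Set ℝ) (B q N : ℕ), 1 ≤ q →
  (∀ (k : ℕ) (s : ℕ → ℝ), (∀ i < 2 * k, s i < s (i + 1)) → (∀ i ≤ k, s (2 * i) ∈ U) →
    (∀ i < k, s (2 * i + 1) ∉ U) → k + 1 ≤ B) →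
  {a : Fin N | ((a : ℕ) : ℝ) / q ∉ U ∧
    ∃ s ∈ U, |s - ((a : ℕ) : ℝ) / q| ≤ 1 / (4 * q)}.ncard ≤ 2 * B

/-- Proof: count by the other coordinates. -/
def S_fib : Prop := ∀ (m N D : ℕ) (j : Fin m) (S : Set (Fin m → Fin N)),
  (∀ r : Fin m → Fin N, {a : Fin N | Function.update r j a ∈ S}.ncard ≤ D) →
  S.ncard ≤ D * N ^ (m - 1)

/-- the list of the entries -/
def lst {m N : ℕ} (r : Fin m → Fin N) : List ℕ := List.ofFn fun k => (r k : ℕ)

/-- **Exceptions are rare.** Proof: for `j ≤ na φ` let `T j` be the condition that there is `y` with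
`|y k - v k| ≤ 1 / (4 q)` for `k < j`, `y k = v k` for `k ≥ j` and `PSat K b φ y`, where
`v = nse q (lst r)`. An exception satisfies `T (j + 1)` and not `T j` for some `j < na φ`; the number of
these is at most `2 * 5 ^ (c * L + 1) * N ^ (na φ - 1)` by `S_fib`, `S_line`, `S_comp`, `S_rep`. -/
def S_cnt : Prop := ∃ c : ℕ, ∀ (K b : ℕ) (φ : Fm) (q N : ℕ), 1 ≤ q →
  {r : Fin (na φ) → Fin N | ¬ PSat K b φ (nse q (lst r)) ∧
    ∃ y : ℕ → ℝ, (∀ k < na φ, |y k - nse q (lst r) k| ≤ 1 / (4 * q)) ∧ PSat K b φ y}.ncard ≤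
      2 ^ (c * φ.toks.length) * N ^ (na φ - 1)

/-! ### The verifier -/

/-- comparison symbols -/
def cmp (t : Tok) : Bool := decide (6 ≤ t.code.1) && decide (t.code.1 ≤ 8)

/-- the symbols of `nz M 0 φ`, from the symbols of `φ` -/
def tk (M : ℕ) (l : List Tok) : List Tok := l.zipIdx.flatMap fun p =>
  if cmp p.1 then [Tok.var (M + (l.zipIdx.filter fun p' => cmp p'.1 && decide (p'.2 < p.2)).length),
    Tok.add, p.1] else [p.1]

/-- Proof: induction, with an offset. -/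
def S_tk : Prop := ∀ (M : ℕ) (φ : Fm), tk M φ.toks = (nz M 0 φ).toks

/-- the denominator of the point -/
def W0 (b q : ℕ) (φ : Fm) : ℕ := 4 * q * (b + 2) ^ (2 * φ.toks.length + 4)

/-- the denominator of all values -/
def WW (b q : ℕ) (φ : Fm) : ℕ := W0 b q φ ^ (φ.toks.length + 1)

/-- larger than all denominators that occur in the evaluation -/
def EE (b q : ℕ) (φ : Fm) : ℕ := WW b q φ ^ (3 * φ.toks.length + 2) + 1

/-- the point given by a certificate -/
noncomputable def cp (W : ℕ) (C : List (ℕ × ℕ × ℕ)) : ℕ → ℝ :=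
  fun i => (((lk C i).1 : ℝ) - (lk C i).2) / W

/-- the result of the evaluation -/
def outS (b q : ℕ) (φ : Fm) (C : List (ℕ × ℕ × ℕ)) : V :=
  ((tk (mb φ) φ.toks).foldl (vstep (1, mb φ + φ.toks.length + 1, 0, WW b q φ, EE b q φ, EE b q φ, C))
    []).head?.getD (0, 0, 0, 0, 0, 0)

/-- the test of an entry for a variable -/
def chD (K b M W : ℕ) (e : ℕ × ℕ × ℕ) : Bool := decide (M ≤ e.1) ||
  (if e.1 < K then decide (e.2.1 ≤ e.2.2 + b * W) && decide (e.2.2 ≤ e.2.1 + b * W)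
    else decide (e.2.1 = e.2.2) || decide (e.2.1 = e.2.2 + W))

/-- the test of an entry for the perturbation -/
def chN (q W M : ℕ) (C : List (ℕ × ℕ × ℕ)) (p : ℕ × ℕ) : Bool :=
  decide (4 * (q * (lk C (M + p.2)).1) ≤ 4 * (q * (lk C (M + p.2)).2 + p.1 * W) + W) &&
  decide (4 * (q * (lk C (M + p.2)).2 + p.1 * W) ≤ 4 * (q * (lk C (M + p.2)).1) + W)

/-- instances `K, b, φ, q, r` -/
abbrev Inst : Type := ℕ × ℕ × Fm × ℕ × List ℕ

/-- the verifier -/
def ver (p : Inst × List (ℕ × ℕ × ℕ)) : Bool :=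
  p.2.all (chD p.1.1 p.1.2.1 (mb p.1.2.2.1) (WW p.1.2.1 p.1.2.2.2.1 p.1.2.2.1)) &&
  (p.1.2.2.2.2.zipIdx.all (chN p.1.2.2.2.1 (WW p.1.2.1 p.1.2.2.2.1 p.1.2.2.1) (mb p.1.2.2.1) p.2) &&
    decide ((outS p.1.2.1 p.1.2.2.2.1 p.1.2.2.1 p.2).1 = 1))

/-- Proof: `poly_machine`, `poly_pow` (`FR/MachP.lean`), `poly_toks`, `Poly.zipIdx`, `Poly.flatMap`,
`Poly.filter`, `Poly.sum`, `poly_lk`; compare `TD/VPoly.lean` and `poly_ver` in `FR/Mem.lean`. -/
def S_poly : Prop := Poly ver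

/-- **exact evaluation**. Proof: as `tok`, `fok` (`FR/Mach.lean`): for a term with variables `< K` the
machine has the value of the term as `(a - b) / w` with `0 < w ≤ W ^ tsz t`, so that `w < E` for the
differences of the two sides. -/
def S_exact : Prop := ∀ (W K E : ℕ) (C : List (ℕ × ℕ × ℕ)) (φ : Fm), 1 ≤ W →
  (∀ t ∈ φ.toks, t.code.2 < K) → W ^ (φ.toks.length + 1) < E →
  (((φ.toks.foldl (vstep (1, K, 0, W, E, E, C)) []).head?.getD (0, 0, 0, 0, 0, 0)).1 = 1 ↔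
    φ.Holds (cp W C))

/-- good certificates -/
def Good (K b : ℕ) (φ : Fm) (q : ℕ) (r : List ℕ) (C : List (ℕ × ℕ × ℕ)) : Prop :=
  (∀ e ∈ C, e.1 < mb φ → (e.1 < K → |((e.2.1 : ℝ) - e.2.2) / WW b q φ| ≤ b) ∧
    (K ≤ e.1 → ((e.2.1 : ℝ) - e.2.2) / WW b q φ = 0 ∨ ((e.2.1 : ℝ) - e.2.2) / WW b q φ = 1)) ∧
  (∀ k < r.length, |cp (WW b q φ) C (mb φ + k) - nse q r k| ≤ 1 / (4 * q)) ∧
  (nz (mb φ) 0 φ).Holds (cp (WW b q φ) C)

/-- Proof: `S_exact`, `S_tk`, `S_nz`. -/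
def S_mean : Prop := ∀ (K b : ℕ) (φ : Fm) (q : ℕ) (r : List ℕ) (C : List (ℕ × ℕ × ℕ)), 1 ≤ q →
  (ver ((K, b, φ, q, r), C) = true ↔ Good K b φ q r C)

/-- Proof: `S_nz`; `x i = cp i` for `i < mb φ`, `x i = 0` for `i ≥ mb φ`, `y k = cp (mb φ + k)`. -/
def S_sound : Prop := ∀ (K b : ℕ) (φ : Fm) (q : ℕ) (r : List ℕ) (C : List (ℕ × ℕ × ℕ)), 1 ≤ q →
  r.length = na φ → Good K b φ q r C →
  ∃ y : ℕ → ℝ, (∀ k < na φ, |y k - nse q r k| ≤ 1 / (4 * q)) ∧ PSat K b φ y

/-- **rounding**. Proof: `x'` is `x` rounded towards zero to a multiple of `1 / W0`; `eval_lip`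
(`FR/Par.lean`, `M = b + 2`, `η = 1 / W0`) gives `|t (x') - t (x)| < 1 / (4 q)` for the difference `t` of the two sides
of an atomic formula, and `t (x') * W0 ^ tsz t` is an integer. If `t (x) = u k`, then `y k = t (x')`; if
`t (x) > u k`, then `y k = u k - 1 / (4 q)`; if `t (x) < u k`, then `y k = u k + 1 / (4 q)`. -/
def S_round : Prop := ∀ (K b : ℕ) (φ : Fm) (q : ℕ) (r : List ℕ), 1 ≤ q → r.length = na φ →
  PSat K b φ (nse q r) → ∃ x y : ℕ → ℝ, Dom K b x ∧ PH x y 0 φ ∧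
    (∀ i, ∃ z : ℤ, x i = z / WW b q φ) ∧
    ∀ k < na φ, (∃ z : ℤ, y k = z / WW b q φ) ∧ |y k - nse q r k| ≤ 1 / (4 * q)

/-- **certificates**. Proof: entries for the variables of `φ` and for `mb φ + k`, `k < na φ`; an integer
`z` is written as `(z.toNat, (-z).toNat)`; sizes as in `fewReal_iff` (`FR/Mem.lean`), `size_pow_le`. -/
def S_cert : Prop := ∃ p : Polynomial ℕ, ∀ (K b : ℕ) (φ : Fm) (q : ℕ) (r : List ℕ), 1 ≤ q →
  r.length = na φ → ∀ x y : ℕ → ℝ, Dom K b x → PH x y 0 φ →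
  (∀ i, ∃ z : ℤ, x i = z / WW b q φ) →
  (∀ k < na φ, (∃ z : ℤ, y k = z / WW b q φ) ∧ |y k - nse q r k| ≤ 1 / (4 * q)) →
  ∃ C : List (ℕ × ℕ × ℕ), sz C ≤ p.eval (sz (K, b, φ, q, r)) ∧ Good K b φ q r C

/-- **hardness without perturbation**. Proof: `bsys` (`ER/Bounded.lean`); see `reduction'`, `poly_svars`,
`hard_pow` in `FR/Hard2.lean` for the names of the variables. -/
def S_hard : Prop := ∀ L : Set (List Bool), InER L → ∃ f : List Bool → ℕ × Fm,
  PolyTime (fun w => bits (f w)) ∧ ∀ w, (w ∈ L ↔ PSat (f w).1 1 (f w).2 fun _ => 0)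

end Pool.Agent.J6H79.SM
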